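import Mathlib

/-!
# Line sets covering the complement of a Baer subplane (MP_06d6b9_co): basic counting

`X` are elements (lines of the plane), `B` are blocks (points of the plane); the whole argument is
carried out for sets `S` of elements.
-/

set_option autoImplicit false
set_option linter.unusedSectionVars false

open Finset
open scoped Classical

namespace Pool.Agent.Helper28.Baer

variable {X B : Type*} [Fintype X] [Fintype B]

/-- A plane of order `s ^ 2` with a Baer subplane `(X0, B0)`. -/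
structure Pl (I : X → B → Prop) (s : ℕ) (X0 : Finset X) (B0 : Finset B) : Prop where
  join : ∀ x y, x ≠ y → #{b | I x b ∧ I y b} = 1
  meet : ∀ b c, b ≠ c → #{x | I x b ∧ I x c} = 1
  degX : ∀ x, #{b | I x b} = s ^ 2 + 1
  degB : ∀ b, #{x | I x b} = s ^ 2 + 1
  x0 : ∀ x ∉ X0, #{b ∈ B0 | I x b} = 1
  x1 : ∀ x ∈ X0, #{b ∈ B0 | I x b} = s + 1
  b0 : ∀ b ∉ B0, #{x ∈ X0 | I x b} = 1
  b1 : ∀ b ∈ B0, #{x ∈ X0 | I x b} = s + 1
  cardX0 : #X0 = s ^ 2 + s + 1
  cardB0 : #B0 = s ^ 2 + s + 1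
  cardB : Fintype.card B = s ^ 4 + s ^ 2 + 1

/-- The blocks through `x`. -/
noncomputable def T (I : X → B → Prop) (x : X) : Finset B := {b | I x b}

/-- The elements on `b`. -/
noncomputable def pts (I : X → B → Prop) (b : B) : Finset X := {x | I x b}

/-- The number of elements of `S` on `b`. -/
noncomputable def n (I : X → B → Prop) (S : Finset X) (b : B) : ℕ := #{x ∈ S | I x b}

section

variable {I : X → B → Prop} {s : ℕ} {X0 : Finset X} {B0 : Finset B}

theorem mem_T {x : X} {b : B} : b ∈ T I x ↔ I x b := by simp [T]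

theorem mem_pts {x : X} {b : B} : x ∈ pts I b ↔ I x b := by simp [pts]

/-- double counting -/
theorem dc (A : Finset X) (C : Finset B) (w : B → ℤ) :
    ∑ x ∈ A, ∑ b ∈ C with I x b, w b = ∑ b ∈ C, (#{x ∈ A | I x b} : ℤ) * w b := by
  simp_rw [Finset.sum_filter]
  rw [Finset.sum_comm]
  apply Finset.sum_congr rfl
  intro b _
  rw [← Finset.sum_filter, Finset.sum_const, nsmul_eq_mul]

theorem sum_T (A : Finset X) (w : B → ℤ) :
    ∑ x ∈ A, ∑ b ∈ T I x, w b = ∑ b, (n I A b : ℤ) * w b := dc A univ w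

theorem card_T (h : Pl I s X0 B0) (x : X) : #(T I x) = s ^ 2 + 1 := h.degX x

theorem card_pts (h : Pl I s X0 B0) (b : B) : #(pts I b) = s ^ 2 + 1 := h.degB b

theorem n_univ (h : Pl I s X0 B0) (b : B) : n I univ b = s ^ 2 + 1 := h.degB b

/-- two elements lie on one block -/
theorem uniq_block (h : Pl I s X0 B0) {x y : X} {b c : B} (hxy : x ≠ y) (h1 : I x b) (h2 : I y b)
    (h3 : I x c) (h4 : I y c) : b = c := by
  have h5 := h.join x y hxy
  rw [Finset.card_eq_one] at h5
  obtain ⟨d, hd⟩ := h5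
  have hb : b ∈ ({b | I x b ∧ I y b} : Finset B) := by simp [h1, h2]
  have hc : c ∈ ({b | I x b ∧ I y b} : Finset B) := by simp [h3, h4]
  rw [hd, Finset.mem_singleton] at hb hc
  rw [hb, hc]

/-- two blocks meet in one element -/
theorem uniq_elt (h : Pl I s X0 B0) {x y : X} {b c : B} (hbc : b ≠ c) (h1 : I x b) (h2 : I x c)
    (h3 : I y b) (h4 : I y c) : x = y := by
  by_contra hxy
  exact hbc (uniq_block h hxy h1 h3 h2 h4)

theorem exists_meet (h : Pl I s X0 B0) {b c : B} (hbc : b ≠ c) : ∃ x, I x b ∧ I x c := by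
  have h5 := h.meet b c hbc
  rw [Finset.card_eq_one] at h5
  obtain ⟨x, hx⟩ := h5
  have : x ∈ ({x | I x b ∧ I x c} : Finset X) := by rw [hx]; simp
  simp only [Finset.mem_filter_univ] at this
  exact ⟨x, this⟩

theorem exists_join (h : Pl I s X0 B0) {x y : X} (hxy : x ≠ y) : ∃ b, I x b ∧ I y b := by
  have h5 := h.join x y hxy
  rw [Finset.card_eq_one] at h5
  obtain ⟨b, hb⟩ := h5
  have : b ∈ ({b | I x b ∧ I y b} : Finset B) := by rw [hb]; simp
  simp only [Finset.mem_filter_univ] at this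
  exact ⟨b, this⟩

/-- an element outside the subplane lies on only one block of the subplane -/
theorem uniq_B0 (h : Pl I s X0 B0) {x : X} (hx : x ∉ X0) {b c : B} (hb : b ∈ B0) (hc : c ∈ B0)
    (h1 : I x b) (h2 : I x c) : b = c := by
  have h5 := h.x0 x hx
  rw [Finset.card_eq_one] at h5
  obtain ⟨d, hd⟩ := h5
  have hb' : b ∈ ({b ∈ B0 | I x b} : Finset B) := by simp [hb, h1]
  have hc' : c ∈ ({b ∈ B0 | I x b} : Finset B) := by simp [hc, h2]
  rw [hd, Finset.mem_singleton] at hb' hc'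
  rw [hb', hc']

/-- a block outside the subplane has only one element of the subplane -/
theorem uniq_X0 (h : Pl I s X0 B0) {b : B} (hb : b ∉ B0) {x y : X} (hx : x ∈ X0) (hy : y ∈ X0)
    (h1 : I x b) (h2 : I y b) : x = y := by
  have h5 := h.b0 b hb
  rw [Finset.card_eq_one] at h5
  obtain ⟨d, hd⟩ := h5
  have hx' : x ∈ ({x ∈ X0 | I x b} : Finset X) := by simp [hx, h1]
  have hy' : y ∈ ({x ∈ X0 | I x b} : Finset X) := by simp [hy, h2]
  rw [hd, Finset.mem_singleton] at hx' hy'
  rw [hx', hy']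

/-- sum over the blocks through `x` of the number of elements in `S` -/
theorem sum_n_T (h : Pl I s X0 B0) (S : Finset X) (x : X) :
    ∑ b ∈ T I x, (n I S b : ℤ) = #S + if x ∈ S then (s : ℤ) ^ 2 else 0 := by
  have h1 : ∑ b ∈ T I x, (n I S b : ℤ) = ∑ y ∈ S, (#{b ∈ T I x | I y b} : ℤ) := by
    have := dc (I := I) S (T I x) (fun _ => (1 : ℤ))
    simp only [mul_one] at this
    rw [show ∑ b ∈ T I x, (n I S b : ℤ) = ∑ b ∈ T I x, (#{x ∈ S | I x b} : ℤ) from rfl, ← this]
    apply Finset.sum_congr rfl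
    intro y _
    rw [Finset.sum_const, nsmul_eq_mul, mul_one]
  have h2 : ∀ y ∈ S, (#{b ∈ T I x | I y b} : ℤ) = 1 + if y = x then (s : ℤ) ^ 2 else 0 := by
    intro y _
    split_ifs with hy
    · subst hy
      have h3 : ({b ∈ T I y | I y b} : Finset B) = T I y := by
        ext b; simp [mem_T]
      rw [h3, card_T h]
      push_cast; ring
    · have h3 : ({b ∈ T I x | I y b} : Finset B) = ({b | I x b ∧ I y b} : Finset B) := by
        ext b; simp [mem_T]
      rw [h3, h.join x y (Ne.symm hy)]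
      simp
  rw [h1, Finset.sum_congr rfl h2, Finset.sum_add_distrib, Finset.sum_const, nsmul_eq_mul, mul_one,
    Finset.sum_ite_eq']

/-- all blocks, weighted, through a fixed block -/
theorem sum_through (h : Pl I s X0 B0) (g : B) (w : B → ℤ) :
    ∑ x ∈ pts I g, ∑ b ∈ T I x, w b = ∑ b, w b + (s : ℤ) ^ 2 * w g := by
  rw [sum_T]
  have h1 : ∀ b, (n I (pts I g) b : ℤ) * w b = w b + if b = g then (s : ℤ) ^ 2 * w g else 0 := by
    intro b
    split_ifs with hb
    · subst hb
      have h3 : n I (pts I b) b = s ^ 2 + 1 := by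
        have : ({x ∈ pts I b | I x b} : Finset X) = pts I b := by
          ext x; simp [mem_pts]
        unfold n
        rw [this, card_pts h]
      rw [h3]; push_cast; ring
    · have h3 : n I (pts I g) b = 1 := by
        have : ({x ∈ pts I g | I x b} : Finset X) = ({x | I x g ∧ I x b} : Finset X) := by
          ext x; simp [mem_pts]
        unfold n
        rw [this, h.meet g b (Ne.symm hb)]
      rw [h3]; push_cast; ring
  rw [Finset.sum_congr rfl (fun b _ => h1 b), Finset.sum_add_distrib, Finset.sum_ite_eq']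
  simp

theorem sum_n (h : Pl I s X0 B0) (S : Finset X) :
    ∑ b, (n I S b : ℤ) = #S * ((s : ℤ) ^ 2 + 1) := by
  have h1 := sum_T (I := I) S (fun _ => (1 : ℤ))
  simp only [mul_one] at h1
  rw [← h1]
  have h2 : ∀ x ∈ S, ∑ b ∈ T I x, (1 : ℤ) = (s : ℤ) ^ 2 + 1 := by
    intro x _
    rw [Finset.sum_const, nsmul_eq_mul, mul_one, card_T h]
    push_cast; ring
  rw [Finset.sum_congr rfl h2, Finset.sum_const, nsmul_eq_mul]

theorem sum_n_sq (h : Pl I s X0 B0) (S : Finset X) :
    ∑ b, (n I S b : ℤ) * n I S b = #S * (#S + (s : ℤ) ^ 2) := by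
  rw [← sum_T (I := I) S (fun b => (n I S b : ℤ))]
  have h2 : ∀ x ∈ S, ∑ b ∈ T I x, (n I S b : ℤ) = #S + (s : ℤ) ^ 2 := by
    intro x hx
    rw [sum_n_T h, if_pos hx]
  rw [Finset.sum_congr rfl h2, Finset.sum_const, nsmul_eq_mul]

theorem sum_n_B0 (h : Pl I s X0 B0) (S : Finset X) :
    ∑ b ∈ B0, (n I S b : ℤ) = #S + (s : ℤ) * #(S ∩ X0) := by
  have h1 := dc (I := I) S B0 (fun _ => (1 : ℤ))
  simp only [mul_one] at h1
  rw [show ∑ b ∈ B0, (n I S b : ℤ) = ∑ b ∈ B0, (#{x ∈ S | I x b} : ℤ) from rfl, ← h1]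
  have h2 : ∀ x ∈ S, ∑ b ∈ B0 with I x b, (1 : ℤ) = 1 + if x ∈ X0 then (s : ℤ) else 0 := by
    intro x _
    rw [Finset.sum_const, nsmul_eq_mul, mul_one]
    split_ifs with hx
    · rw [h.x1 x hx]; push_cast; ring
    · rw [h.x0 x hx]; simp
  rw [Finset.sum_congr rfl h2, Finset.sum_add_distrib, Finset.sum_const, nsmul_eq_mul, mul_one,
    ← Finset.sum_filter, Finset.sum_const, nsmul_eq_mul, Finset.filter_mem_eq_inter]
  ring

/-- number of subplane blocks through an element -/
theorem card_T_B0 (h : Pl I s X0 B0) (x : X) :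
    #{b ∈ T I x | b ∈ B0} = if x ∈ X0 then s + 1 else 1 := by
  have h1 : ({b ∈ T I x | b ∈ B0} : Finset B) = ({b ∈ B0 | I x b} : Finset B) := by
    ext b; simp [mem_T, and_comm]
  rw [h1]
  split_ifs with hx
  · exact h.x1 x hx
  · exact h.x0 x hx

/-- number of non-subplane blocks through an element -/
theorem card_T_N (h : Pl I s X0 B0) (x : X) :
    #{b ∈ T I x | b ∉ B0} + (if x ∈ X0 then s + 1 else 1) = s ^ 2 + 1 := by
  rw [← card_T_B0 h x, ← card_T h x, add_comm]
  exact Finset.card_filter_add_card_filter_not (s := T I x) (p := fun b => b ∈ B0)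

/-- subplane elements on a block -/
theorem card_pts_X0 (h : Pl I s X0 B0) (b : B) :
    #{x ∈ pts I b | x ∈ X0} = if b ∈ B0 then s + 1 else 1 := by
  have h1 : ({x ∈ pts I b | x ∈ X0} : Finset X) = ({x ∈ X0 | I x b} : Finset X) := by
    ext b; simp [mem_pts, and_comm]
  rw [h1]
  split_ifs with hx
  · exact h.b1 b hx
  · exact h.b0 b hx

end

end Pool.Agent.Helper28.Baer
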