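import Pool.Agent.Helper28.Baer.Sizes

/-!
# Critical sets (MP_06d6b9_co): the case of a block with `s + 2` elements
-/

set_option autoImplicit false
set_option linter.unusedSectionVars false

open Finset
open scoped Classical

namespace Pool.Agent.Helper28.Baer

variable {X B : Type*} [Fintype X] [Fintype B]
variable {I : X → B → Prop} {s : ℕ} {X0 : Finset X} {B0 : Finset B} {S : Finset X}

theorem sum_nF (h : Pl I s X0 B0) {F : Finset X} (hF : F ⊆ X0) :
    ∑ b ∈ B0, (n I F b : ℤ) = #F * (s + 1) := by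
  rw [sum_n_B0 h, Finset.inter_eq_left.2 hF]
  ring

theorem join_B0 (h : Pl I s X0 B0) {x y : X} (hx : x ∈ X0) (hy : y ∈ X0) (hxy : x ≠ y) {b : B}
    (h1 : I x b) (h2 : I y b) : b ∈ B0 := by
  by_contra hb
  exact hxy (uniq_X0 h hb hx hy h1 h2)

theorem sum_nF_sq (h : Pl I s X0 B0) {F : Finset X} (hF : F ⊆ X0) :
    ∑ b ∈ B0, (n I F b : ℤ) * n I F b = #F * (#F + s) := by
  have h0 := dc (I := I) F B0 (fun b => (n I F b : ℤ))
  rw [show ∑ b ∈ B0, (n I F b : ℤ) * n I F b = ∑ b ∈ B0, (#{x ∈ F | I x b} : ℤ) * n I F b from rfl,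
    ← h0]
  have h1 : ∀ x ∈ F, ∑ b ∈ B0 with I x b, (n I F b : ℤ) = #F + s := by
    intro x hx
    have h2 := dc (I := I) F ({b ∈ B0 | I x b} : Finset B) (fun _ => (1 : ℤ))
    simp only [mul_one] at h2
    rw [show ∑ b ∈ B0 with I x b, (n I F b : ℤ) =
      ∑ b ∈ ({b ∈ B0 | I x b} : Finset B), (#{x ∈ F | I x b} : ℤ) from rfl, ← h2]
    have h3 : ∀ y ∈ F, ∑ b ∈ ({b ∈ B0 | I x b} : Finset B) with I y b, (1 : ℤ) =
        1 + if y = x then (s : ℤ) else 0 := by
      intro y hy
      rw [Finset.sum_const, nsmul_eq_mul, mul_one]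
      split_ifs with hxy
      · subst hxy
        have : ({b ∈ ({b ∈ B0 | I y b} : Finset B) | I y b} : Finset B) =
            ({b ∈ B0 | I y b} : Finset B) := by
          ext b; simp
        rw [this, h.x1 y (hF hx)]
        push_cast; ring
      · have h4 : ({b ∈ ({b ∈ B0 | I x b} : Finset B) | I y b} : Finset B) =
            ({b | I x b ∧ I y b} : Finset B) := by
          ext b
          simp only [Finset.mem_filter, Finset.mem_univ, true_and]
          constructor
          · rintro ⟨⟨_, h5⟩, h6⟩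
            exact ⟨h5, h6⟩
          · rintro ⟨h5, h6⟩
            exact ⟨⟨join_B0 h (hF hx) (hF hy) (Ne.symm hxy) h5 h6, h5⟩, h6⟩
        rw [h4, h.join x y (Ne.symm hxy)]
        simp
    rw [Finset.sum_congr rfl h3, Finset.sum_add_distrib, Finset.sum_ite_eq']
    simp [hx]
  rw [Finset.sum_congr rfl h1, Finset.sum_const, nsmul_eq_mul]

theorem card_nonzero (h : Crit I s X0 B0 S) :
    (#{b ∈ B0 | n I S b ≠ 0} : ℤ) = (s : ℤ) ^ 2 + s + 1 - zc I S := by
  have h1 := Finset.card_filter_add_card_filter_not (s := B0) (p := fun b => n I S b = 0)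
  have h2 : ({b ∈ B0 | n I S b = 0} : Finset B) = ({b | n I S b = 0} : Finset B) := by
    ext b
    simp only [Finset.mem_filter, Finset.mem_univ, true_and]
    exact ⟨fun h => h.2, fun h' => ⟨zero_mem_B0 h h', h'⟩⟩
  rw [h2, h.pl.cardB0] at h1
  have h3 : (zc I S : ℤ) + #{b ∈ B0 | n I S b ≠ 0} = (s : ℤ) ^ 2 + s + 1 := by
    unfold zc
    exact_mod_cast h1
  linarith

/-- few elements of `S` in the subplane -/
theorem sigma_le (h : Crit I s X0 B0 S) : #(S ∩ X0) ≤ 4 := by
  have hs : (20 : ℤ) ≤ s := by exact_mod_cast h.hs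
  set F := S ∩ X0 with hF
  have hFX : F ⊆ X0 := Finset.inter_subset_right
  have h1 := sum_nF h.pl hFX
  have h2 := sum_nF_sq h.pl hFX
  have hz : ∀ b ∈ B0, ¬ n I S b ≠ 0 → n I F b = 0 := by
    intro b _ hb
    push Not at hb
    rw [n_eq_zero] at hb ⊢
    intro x hx
    exact hb x (Finset.mem_inter.1 hx).1
  have h3 : ∑ b ∈ B0 with n I S b ≠ 0, (n I F b : ℤ) = #F * (s + 1) := by
    rw [← h1, Finset.sum_filter]
    apply Finset.sum_congr rfl
    intro b hb
    split_ifs with h4
    · rfl
    · rw [hz b hb h4]; rfl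
  have h4 : ∑ b ∈ B0 with n I S b ≠ 0, (n I F b : ℤ) ^ 2 ≤ #F * (#F + s) := by
    rw [← h2]
    calc ∑ b ∈ B0 with n I S b ≠ 0, (n I F b : ℤ) ^ 2 ≤ ∑ b ∈ B0, (n I F b : ℤ) ^ 2 :=
          Finset.sum_le_sum_of_subset_of_nonneg (Finset.filter_subset _ _)
            fun _ _ _ => by positivity
      _ = _ := Finset.sum_congr rfl fun b _ => sq _
  have h5 := sq_sum_le_card_mul_sum_sq (s := ({b ∈ B0 | n I S b ≠ 0} : Finset B))
    (f := fun b => (n I F b : ℤ))
  rw [h3, card_nonzero h] at h5
  have h6 := zc_lb h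
  by_contra hcon
  push Not at hcon
  have h7 : (5 : ℤ) ≤ #F := by exact_mod_cast hcon
  set f : ℤ := (#F : ℤ) with hf
  have h8 : (s : ℤ) ^ 2 + s + 1 - zc I S ≤ 4 * s - 3 := by linarith
  have h9 : (f * (s + 1)) ^ 2 ≤ (4 * s - 3) * (f * (f + s)) := by
    refine h5.trans ?_
    have h10 : (0 : ℤ) ≤ ∑ b ∈ B0 with n I S b ≠ 0, (n I F b : ℤ) ^ 2 :=
      Finset.sum_nonneg fun _ _ => by positivity
    calc _ ≤ (4 * (s : ℤ) - 3) * ∑ b ∈ B0 with n I S b ≠ 0, (n I F b : ℤ) ^ 2 :=
          mul_le_mul_of_nonneg_right h8 h10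
      _ ≤ _ := mul_le_mul_of_nonneg_left h4 (by linarith)
  have h10 : f * (f * (s + 1) ^ 2) ≤ f * ((4 * s - 3) * (f + s)) := by
    calc _ = (f * (s + 1)) ^ 2 := by ring
      _ ≤ _ := h9
      _ = _ := by ring
  have h11 := le_of_mul_le_mul_left h10 (by linarith)
  have h12 : (0 : ℤ) ≤ (s : ℤ) ^ 2 - 2 * s + 4 := by nlinarith
  have h13 := mul_le_mul_of_nonneg_right h7 h12
  nlinarith

/-- the number of elements of `S` on both `m` and `b` -/
noncomputable def tau (I : X → B → Prop) (S : Finset X) (m b : B) : ℕ := #{t ∈ S | I t m ∧ I t b}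

theorem tau_le_one (h : Crit I s X0 B0 S) {m b : B} (hmb : b ≠ m) : tau I S m b ≤ 1 := by
  unfold tau
  rw [Finset.card_le_one]
  intro x hx y hy
  rw [Finset.mem_filter] at hx hy
  exact uniq_elt h.pl hmb hx.2.2 hx.2.1 hy.2.2 hy.2.1

theorem sum_tau (h : Crit I s X0 B0 S) {m : B} {x : X} (hx : ¬ I x m) :
    ∑ b ∈ T I x, tau I S m b = n I S m := by
  have h1 := dc (I := I) ({t ∈ S | I t m} : Finset X) (T I x) (fun _ => (1 : ℤ))
  simp only [mul_one] at h1
  have h2 : ∀ t ∈ ({t ∈ S | I t m} : Finset X), ∑ b ∈ T I x with I t b, (1 : ℤ) = 1 := by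
    intro t ht
    rw [Finset.mem_filter] at ht
    have hxt : x ≠ t := by
      rintro rfl
      exact hx ht.2
    rw [Finset.sum_const, nsmul_eq_mul, mul_one]
    have : ({b ∈ T I x | I t b} : Finset B) = ({b | I x b ∧ I t b} : Finset B) := by
      ext b; simp [mem_T]
    rw [this, h.pl.join x t hxt]
    rfl
  rw [Finset.sum_congr rfl h2] at h1
  simp only [Finset.sum_const, nsmul_eq_mul, mul_one] at h1
  have h3 : ∑ b ∈ T I x, (#{t ∈ ({t ∈ S | I t m} : Finset X) | I t b} : ℤ) =
      ∑ b ∈ T I x, (tau I S m b : ℤ) := by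
    apply Finset.sum_congr rfl
    intro b _
    unfold tau
    rw [Finset.filter_filter]
  rw [h3] at h1
  have : (n I S m : ℤ) = ∑ b ∈ T I x, (tau I S m b : ℤ) := h1
  exact_mod_cast this.symm

theorem tau_eq_zero {m b : B} : tau I S m b = 0 ↔ ∀ t ∈ S, I t m → ¬ I t b := by
  unfold tau
  rw [Finset.card_eq_zero, Finset.filter_eq_empty_iff]
  constructor
  · intro h t ht h1 h2
    exact h ht ⟨h1, h2⟩
  · intro h t ht h1
    exact h t ht h1.1 h1.2

/-- a block not meeting the big block in `S` nor in the subplane is a tangent -/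
theorem tangent (h : Crit I s X0 B0 S) {m : B} (hm : n I S m = s + 2) {r : X} (hr : I r m)
    (hrS : r ∉ S) (hr0 : r ∉ X0) {b : B} (hb : I r b) (hbm : b ≠ m) : n I S b ≤ 1 := by
  have hmN := big_not_mem h hm
  have hz := zx_of_big h hm hr hrS hr0
  by_cases hbB : b ∈ B0
  · -- `b` is the missed block through `r`
    have h1 : 0 < zx I S r := by omega
    unfold zx at h1
    rw [Finset.card_pos] at h1
    obtain ⟨c, hc⟩ := h1
    rw [Finset.mem_filter, mem_T] at hc
    have := uniq_B0 h.pl hr0 hbB (zero_mem_B0 h hc.2) hb hc.1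
    rw [this, hc.2]
    omega
  · have h1 := eN_add_le h hbB hmN hbm hb hr
    rw [eN_of_zx h hrS hr0 hz, hm] at h1
    push_cast at h1
    omega

/-- the structure at an element of `S` off the big block -/
theorem caseY_x (h : Crit I s X0 B0 S) {m : B} (hm : n I S m = s + 2) {x : X} (hxS : x ∈ S)
    (hxm : ¬ I x m) (hx0 : x ∉ X0) :
    (yx I s S x = 0 ∧ ∀ b, I x b → n I S b ≠ 1 → tau I S m b ≠ 0) ∨ s ≤ yx I s S x + 3 := by
  have hs := h.hs
  have hmN := big_not_mem h hm
  have hne : ∀ b, I x b → b ≠ m := by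
    rintro b hb rfl
    exact hxm hb
  -- big blocks through `x` meet `m` in `S`
  have hbig : ∀ b, I x b → n I S b = s + 2 → tau I S m b = 1 := by
    intro b hb1 hb2
    have h1 := tau_le_one h (hne b hb1)
    by_contra hcon
    have h2 : tau I S m b = 0 := by omega
    obtain ⟨r, hr1, hr2⟩ := exists_meet h.pl (hne b hb1)
    have hrS : r ∉ S := fun hrS => (tau_eq_zero.1 h2) r hrS hr2 hr1
    have h3 := yx_le_one h hrS
    unfold yx at h3
    rw [Finset.card_le_one] at h3
    exact hne b hb1 (h3 b (by rw [Finset.mem_filter, mem_T]; exact ⟨hr1, hb2⟩) m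
      (by rw [Finset.mem_filter, mem_T]; exact ⟨hr2, hm⟩))
  -- exceptional blocks
  have hexc : ∀ b, I x b → tau I S m b = 0 → n I S b ≠ 1 →
      ∃ r, I r b ∧ I r m ∧ r ∉ S ∧ r ∈ X0 := by
    intro b hb1 hb2 hb3
    obtain ⟨r, hr1, hr2⟩ := exists_meet h.pl (hne b hb1)
    have hrS : r ∉ S := fun hrS => (tau_eq_zero.1 hb2) r hrS hr2 hr1
    refine ⟨r, hr1, hr2, hrS, ?_⟩
    by_contra hr0
    have h4 := tangent h hm hr2 hrS hr0 hr1 (hne b hb1)
    have h5 := n_pos hxS hb1
    omega
  have huniq : ∀ b c, I x b → I x c → tau I S m b = 0 → tau I S m c = 0 → n I S b ≠ 1 →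
      n I S c ≠ 1 → b = c := by
    intro b c hb1 hc1 hb2 hc2 hb3 hc3
    obtain ⟨r, hr1, hr2, hr3, hr4⟩ := hexc b hb1 hb2 hb3
    obtain ⟨q, hq1, hq2, hq3, hq4⟩ := hexc c hc1 hc2 hc3
    have hrq := uniq_X0 h.pl hmN hr4 hq4 hr2 hq2
    subst hrq
    have hxr : x ≠ r := by rintro rfl; exact hr3 hxS
    exact uniq_block h.pl hxr hb1 hr1 hc1 hq1
  -- the classes of blocks through `x`
  set A1 : ℕ := #{b ∈ T I x | tau I S m b = 1 ∧ n I S b = 2} with hA1
  set A2 : ℕ := #{b ∈ T I x | tau I S m b = 1 ∧ n I S b = s} with hA2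
  have hA3 : yx I s S x = #{b ∈ T I x | tau I S m b = 1 ∧ n I S b = s + 2} := by
    unfold yx
    congr 1
    ext b
    rw [Finset.mem_filter, Finset.mem_filter, mem_T]
    constructor
    · rintro ⟨h1, h2⟩
      exact ⟨h1, hbig b h1 h2, h2⟩
    · rintro ⟨h1, -, h2⟩
      exact ⟨h1, h2⟩
  set p : ℤ := ∑ b ∈ T I x with tau I S m b = 0, ((n I S b : ℤ) - 1) with hp
  have hA2le : A2 ≤ 1 := by
    rw [hA2, Finset.card_le_one]
    intro b hb c hc
    rw [Finset.mem_filter, mem_T] at hb hc
    have h1 : ∀ b, n I S b = s → b ∈ B0 := by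
      intro b hb
      by_contra hN
      have := size_N h hN
      omega
    exact uniq_B0 h.pl hx0 (h1 b hb.2.2) (h1 c hc.2.2) hb.1 hc.1
  -- the counting equation
  have heq : ((s : ℤ) - 1) * A1 + A2 - yx I s S x = s + p := by
    have h1 := sum_in h hxS
    rw [← Finset.sum_filter_add_sum_filter_not (T I x) (fun b => tau I S m b = 0), ← hp] at h1
    have h2 : ∀ b ∈ ({b ∈ T I x | ¬ tau I S m b = 0} : Finset B), ((n I S b : ℤ) - 1) =
        s * tau I S m b - ((s : ℤ) - 1) * (if tau I S m b = 1 ∧ n I S b = 2 then 1 else 0)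
          - (if tau I S m b = 1 ∧ n I S b = s then 1 else 0)
          + (if tau I S m b = 1 ∧ n I S b = s + 2 then 1 else 0) := by
      intro b hb
      rw [Finset.mem_filter, mem_T] at hb
      have h3 := tau_le_one h (hne b hb.1)
      have h4 : tau I S m b = 1 := by omega
      have h5 : 2 ≤ n I S b := by
        have h6 : ∃ t ∈ S, I t m ∧ I t b := by
          by_contra hcon
          push Not at hcon
          exact hb.2 (tau_eq_zero.2 hcon)
        obtain ⟨t, ht1, ht2, ht3⟩ := h6
        have hxt : x ≠ t := by rintro rfl; exact hxm ht2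
        have h7 : ({x, t} : Finset X) ⊆ ({y ∈ S | I y b} : Finset X) := by
          intro y hy
          simp only [Finset.mem_insert, Finset.mem_singleton] at hy
          rw [Finset.mem_filter]
          rcases hy with rfl | rfl
          · exact ⟨hxS, hb.1⟩
          · exact ⟨ht1, ht3⟩
        have h8 := Finset.card_le_card h7
        rw [Finset.card_pair hxt] at h8
        exact h8
      have h6 : n I S b = 2 ∨ n I S b = s ∨ n I S b = s + 1 ∨ n I S b = s + 2 := by
        by_cases hbB : b ∈ B0
        · have := size_B h hbB; omega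
        · have := size_N h hbB; omega
      rw [h4]
      rcases h6 with h6 | h6 | h6 | h6
      · rw [h6, if_pos ⟨rfl, rfl⟩, if_neg (by omega), if_neg (by omega)]; push_cast; ring
      · rw [h6, if_neg (by omega), if_pos ⟨rfl, rfl⟩, if_neg (by omega)]; push_cast; ring
      · rw [h6, if_neg (by omega), if_neg (by omega), if_neg (by omega)]; push_cast; ring
      · rw [h6, if_neg (by omega), if_neg (by omega), if_pos ⟨rfl, rfl⟩]; push_cast; ring
    have h3 : ∀ f : B → ℤ, (∀ b, tau I S m b = 0 → f b = 0) →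
        ∑ b ∈ T I x with ¬ tau I S m b = 0, f b = ∑ b ∈ T I x, f b := by
      intro f hf
      rw [Finset.sum_filter]
      apply Finset.sum_congr rfl
      intro b _
      by_cases h4 : tau I S m b = 0
      · rw [if_neg (not_not.2 h4), hf b h4]
      · rw [if_pos h4]
    rw [Finset.sum_congr rfl h2, Finset.sum_add_distrib, Finset.sum_sub_distrib,
      Finset.sum_sub_distrib, ← Finset.mul_sum, ← Finset.mul_sum,
      h3 (fun b => (tau I S m b : ℤ)) (by intro b hb; rw [hb]; rfl),
      h3 (fun b => if tau I S m b = 1 ∧ n I S b = 2 then 1 else 0)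
        (by intro b hb; rw [if_neg]; omega),
      h3 (fun b => if tau I S m b = 1 ∧ n I S b = s then 1 else 0)
        (by intro b hb; rw [if_neg]; omega),
      h3 (fun b => if tau I S m b = 1 ∧ n I S b = s + 2 then 1 else 0)
        (by intro b hb; rw [if_neg]; omega)] at h1
    have h4 : ∑ b ∈ T I x, (tau I S m b : ℤ) = s + 2 := by
      have := sum_tau h (m := m) hxm
      rw [hm] at this
      exact_mod_cast this
    rw [h4] at h1
    rw [← Finset.sum_filter, ← Finset.sum_filter, ← Finset.sum_filter] at h1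
    simp only [Finset.sum_const, nsmul_eq_mul, mul_one] at h1
    rw [← hA1, ← hA2, ← hA3] at h1
    linarith
  -- the value of p
  have hpval : (p = 0 ∧ ∀ b, I x b → n I S b ≠ 1 → tau I S m b ≠ 0) ∨ p = 1 ∨
      (p = s - 1 ∧ A2 = 0) ∨ p = s := by
    by_cases hex : ∃ b, I x b ∧ n I S b ≠ 1 ∧ tau I S m b = 0
    · right
      obtain ⟨b, hb1, hb2, hb3⟩ := hex
      have h1 : p = (n I S b : ℤ) - 1 := by
        rw [hp]
        apply Finset.sum_eq_single_of_mem b
        · rw [Finset.mem_filter, mem_T]; exact ⟨hb1, hb3⟩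
        · intro c hc hcb
          rw [Finset.mem_filter, mem_T] at hc
          by_contra hcon
          apply hcb
          apply huniq c b hc.1 hb1 hc.2 hb3 _ hb2
          intro h4
          apply hcon
          rw [h4]; simp
      have h2 := n_pos hxS hb1
      have h3 : n I S b ≠ s + 2 := fun h3 => by
        have := hbig b hb1 h3
        omega
      by_cases hbB : b ∈ B0
      · have h4 := size_B h hbB
        have h5 : n I S b = s ∨ n I S b = s + 1 := by omega
        rcases h5 with h5 | h5
        · right; left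
          constructor
          · rw [h1, h5]
          · rw [hA2, Finset.card_eq_zero, Finset.filter_eq_empty_iff]
            rintro c hc ⟨h6, h7⟩
            rw [mem_T] at hc
            have h8 : c ∈ B0 := by
              by_contra hN
              have := size_N h hN
              omega
            have := uniq_B0 h.pl hx0 h8 hbB hc hb1
            rw [this] at h6
            omega
        · right; right
          rw [h1, h5]; push_cast; ring
      · have h4 := size_N h hbB
        have h5 : n I S b = 2 ∨ n I S b = s + 1 := by omega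
        rcases h5 with h5 | h5
        · left; rw [h1, h5]; norm_num
        · right; right
          rw [h1, h5]; push_cast; ring
    · left
      push Not at hex
      refine ⟨?_, fun b h1 h2 => hex b h1 h2⟩
      rw [hp]
      apply Finset.sum_eq_zero
      intro b hb
      rw [Finset.mem_filter, mem_T] at hb
      by_contra hcon
      have h1 : n I S b ≠ 1 := by
        intro h1
        apply hcon
        rw [h1]; simp
      exact hex b hb.1 h1 hb.2
  have hsZ : (20 : ℤ) ≤ s := by exact_mod_cast hs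
  have hA2Z : (A2 : ℤ) ≤ 1 := by exact_mod_cast hA2le
  have hA1c : A1 = 0 ∨ A1 = 1 ∨ A1 = 2 ∨ 3 ≤ A1 := by omega
  have hY : (0 : ℤ) ≤ yx I s S x := by positivity
  rcases hpval with ⟨h1, h2⟩ | h1 | ⟨h1, h2⟩ | h1
  · rw [h1] at heq
    rcases hA1c with h3 | h3 | h3 | h3
    · exfalso
      rw [h3] at heq
      push_cast at heq
      linarith
    · left
      refine ⟨?_, h2⟩
      rw [h3] at heq
      push_cast at heq
      have : (yx I s S x : ℤ) ≤ 0 := by linarith
      omega
    · right
      rw [h3] at heq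
      push_cast at heq
      have : (s : ℤ) ≤ yx I s S x + 3 := by linarith
      exact_mod_cast this
    · right
      have h4 : (3 : ℤ) ≤ A1 := by exact_mod_cast h3
      have : (s : ℤ) ≤ yx I s S x + 3 := by nlinarith
      exact_mod_cast this
  · rw [h1] at heq
    rcases hA1c with h3 | h3 | h3 | h3
    · exfalso
      rw [h3] at heq
      push_cast at heq
      linarith
    · exfalso
      rw [h3] at heq
      push_cast at heq
      linarith
    · right
      rw [h3] at heq
      push_cast at heq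
      have : (s : ℤ) ≤ yx I s S x + 3 := by linarith
      exact_mod_cast this
    · right
      have h4 : (3 : ℤ) ≤ A1 := by exact_mod_cast h3
      have : (s : ℤ) ≤ yx I s S x + 3 := by nlinarith
      exact_mod_cast this
  · rw [h1, h2] at heq
    rcases hA1c with h3 | h3 | h3 | h3
    · exfalso
      rw [h3] at heq
      push_cast at heq
      linarith
    · exfalso
      rw [h3] at heq
      push_cast at heq
      linarith
    · exfalso
      rw [h3] at heq
      push_cast at heq
      linarith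
    · right
      have h4 : (3 : ℤ) ≤ A1 := by exact_mod_cast h3
      have : (s : ℤ) ≤ yx I s S x + 3 := by nlinarith
      exact_mod_cast this
  · rw [h1] at heq
    rcases hA1c with h3 | h3 | h3 | h3
    · exfalso
      rw [h3] at heq
      push_cast at heq
      linarith
    · exfalso
      rw [h3] at heq
      push_cast at heq
      linarith
    · exfalso
      rw [h3] at heq
      push_cast at heq
      linarith
    · right
      have h4 : (3 : ℤ) ≤ A1 := by exact_mod_cast h3
      have : (s : ℤ) ≤ yx I s S x + 3 := by nlinarith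
      exact_mod_cast this

end Pool.Agent.Helper28.Baer
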