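import Pool.Agent.Helper28.Baer.CaseY

/-!
# Critical sets (MP_06d6b9_co): the number of missed blocks if there is a big block
-/

set_option autoImplicit false
set_option linter.unusedSectionVars false

open Finset
open scoped Classical

namespace Pool.Agent.Helper28.Baer

variable {X B : Type*} [Fintype X] [Fintype B]
variable {I : X → B → Prop} {s : ℕ} {X0 : Finset X} {B0 : Finset B} {S : Finset X}

theorem sum_yx (h : Crit I s X0 B0 S) : ∑ x ∈ S, yx I s S x = (s + 2) * yc I s S := by
  have h2 := sum_T (I := I) S (fun b => if n I S b = s + 2 then (1 : ℤ) else 0)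
  have h3 : ∀ x, ∑ b ∈ T I x, (if n I S b = s + 2 then (1 : ℤ) else 0) = yx I s S x := by
    intro x
    rw [← Finset.sum_filter]; simp [yx]
  simp only [h3] at h2
  have h4 : ∀ b, (n I S b : ℤ) * (if n I S b = s + 2 then (1 : ℤ) else 0) =
      (s + 2) * (if n I S b = s + 2 then (1 : ℤ) else 0) := by
    intro b
    split_ifs with h5
    · rw [h5]; push_cast; ring
    · ring
  rw [Finset.sum_congr rfl (fun b _ => h4 b), ← Finset.mul_sum, ← Finset.sum_filter] at h2
  simp only [Finset.sum_const, nsmul_eq_mul, mul_one] at h2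
  unfold yc
  exact_mod_cast h2

/-- no element of `S` off `m` and off the subplane is on a big block -/
theorem yx_eq_zero (h : Crit I s X0 B0 S) {m : B} (hm : n I S m = s + 2) {x : X} (hxS : x ∈ S)
    (hxm : ¬ I x m) (hx0 : x ∉ X0) : yx I s S x = 0 := by
  by_contra hne
  have hs := h.hs
  set G : Finset X := {x ∈ S | ¬ I x m ∧ x ∉ X0 ∧ yx I s S x ≠ 0} with hG
  have hGy : ∀ y ∈ G, s ≤ yx I s S y + 3 := by
    intro y hy
    rw [hG, Finset.mem_filter] at hy
    rcases caseY_x h hm hy.1 hy.2.1 hy.2.2.1 with h1 | h1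
    · exact absurd h1.1 hy.2.2.2
    · exact h1
  have hxG : x ∈ G := by
    rw [hG, Finset.mem_filter]
    exact ⟨hxS, hxm, hx0, hne⟩
  -- the big blocks through `x` contain many elements of `G`
  set C : Finset B := {b ∈ T I x | n I S b = s + 2} with hC
  have hCx : #C = yx I s S x := rfl
  have h1 : ∀ b ∈ C, s - 1 ≤ #{y ∈ G.erase x | I y b} := by
    intro b hb
    rw [hC, Finset.mem_filter, mem_T] at hb
    have hbN := big_not_mem h hb.2
    have hbm : b ≠ m := by rintro rfl; exact hxm hb.1
    have h2 : ({y ∈ S | I y b} : Finset X) ⊆ ({y ∈ G.erase x | I y b} : Finset X) ∪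
        ({x} ∪ (({y ∈ S | I y m ∧ I y b} : Finset X) ∪ ({y ∈ X0 | I y b} : Finset X))) := by
      intro y hy
      rw [Finset.mem_filter] at hy
      simp only [Finset.mem_union, Finset.mem_filter, Finset.mem_singleton, Finset.mem_erase]
      by_cases h3 : y = x
      · exact Or.inr (Or.inl h3)
      by_cases h4 : I y m
      · exact Or.inr (Or.inr (Or.inl ⟨hy.1, h4, hy.2⟩))
      by_cases h5 : y ∈ X0
      · exact Or.inr (Or.inr (Or.inr ⟨h5, hy.2⟩))
      left
      refine ⟨⟨h3, ?_⟩, hy.2⟩
      rw [hG, Finset.mem_filter]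
      refine ⟨hy.1, h4, h5, ?_⟩
      have : 0 < yx I s S y := by
        unfold yx
        rw [Finset.card_pos]
        exact ⟨b, by rw [Finset.mem_filter, mem_T]; exact ⟨hy.2, hb.2⟩⟩
      omega
    have h3 := Finset.card_le_card h2
    have h4 := Finset.card_union_le ({y ∈ G.erase x | I y b} : Finset X)
      ({x} ∪ (({y ∈ S | I y m ∧ I y b} : Finset X) ∪ ({y ∈ X0 | I y b} : Finset X)))
    have h5 := Finset.card_union_le ({x} : Finset X)
      (({y ∈ S | I y m ∧ I y b} : Finset X) ∪ ({y ∈ X0 | I y b} : Finset X))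
    have h6 := Finset.card_union_le ({y ∈ S | I y m ∧ I y b} : Finset X)
      ({y ∈ X0 | I y b} : Finset X)
    have h7 : #({y ∈ S | I y m ∧ I y b} : Finset X) ≤ 1 := tau_le_one h hbm
    have h8 := h.pl.b0 b hbN
    have h9 : #({y ∈ S | I y b} : Finset X) = s + 2 := hb.2
    rw [Finset.card_singleton] at h5
    omega
  have h2 : (s - 1) * #C ≤ #G := by
    have h3 := dc (I := I) (G.erase x) C (fun _ => (1 : ℤ))
    simp only [mul_one] at h3
    have h4 : ∑ y ∈ G.erase x, ∑ b ∈ C with I y b, (1 : ℤ) ≤ #G := by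
      calc ∑ y ∈ G.erase x, ∑ b ∈ C with I y b, (1 : ℤ) ≤ ∑ y ∈ G.erase x, 1 := by
            apply Finset.sum_le_sum
            intro y hy
            rw [Finset.sum_const, nsmul_eq_mul, mul_one]
            have : #{b ∈ C | I y b} ≤ 1 := by
              rw [Finset.card_le_one]
              intro b hb c hc
              rw [Finset.mem_filter, hC, Finset.mem_filter, mem_T] at hb hc
              exact uniq_block h.pl (Finset.ne_of_mem_erase hy) hb.2 hb.1.1 hc.2 hc.1.1
            exact_mod_cast this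
        _ = #(G.erase x) := by simp
        _ ≤ #G := by exact_mod_cast Finset.card_le_card (Finset.erase_subset _ _)
    rw [h3] at h4
    have h5 : ((s - 1 : ℕ) : ℤ) * #C ≤ ∑ b ∈ C, (#{y ∈ G.erase x | I y b} : ℤ) := by
      rw [mul_comm, ← nsmul_eq_mul, ← Finset.sum_const]
      apply Finset.sum_le_sum
      intro b hb
      exact_mod_cast h1 b hb
    exact_mod_cast h5.trans h4
  have h3 : (s - 3) * #G ≤ (s + 2) * yc I s S := by
    rw [← sum_yx h, mul_comm, ← smul_eq_mul, ← Finset.sum_const]
    calc ∑ _x ∈ G, (s - 3) ≤ ∑ y ∈ G, yx I s S y := by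
          apply Finset.sum_le_sum
          intro y hy
          have := hGy y hy
          omega
      _ ≤ ∑ y ∈ S, yx I s S y :=
          Finset.sum_le_sum_of_subset_of_nonneg (Finset.filter_subset _ _)
            fun _ _ _ => Nat.zero_le _
  have h4 := hGy x hxG
  have h5 := three_yc_le h
  rw [hCx] at h2
  obtain ⟨k, rfl⟩ : ∃ k, s = k + 3 := ⟨s - 3, by omega⟩
  have h6 : k ≤ yx I (k + 3) S x := by omega
  have h7 : (k + 3 - 1) = k + 2 := by omega
  have h8 : (k + 3 - 3) = k := by omega
  rw [h7] at h2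
  rw [h8] at h3
  have h9 : (k + 2) * k ≤ #G := (Nat.mul_le_mul_left _ h6).trans h2
  have h10 : k * ((k + 2) * k) ≤ (k + 3 + 2) * yc I (k + 3) S :=
    (Nat.mul_le_mul_left _ h9).trans h3
  have h11 : (k : ℤ) * ((k + 2) * k) ≤ (k + 3 + 2) * yc I (k + 3) S := by exact_mod_cast h10
  have h12 : (17 : ℤ) ≤ k := by exact_mod_cast (by omega : 17 ≤ k)
  push_cast at h5
  have h13 : 3 * ((k : ℤ) * ((k + 2) * k)) ≤ (k + 5) * (((k : ℤ) + 3) ^ 2 + (k + 3) + 1) := by
    nlinarith
  nlinarith [mul_nonneg (by linarith : (0:ℤ) ≤ (k:ℤ) - 17) (by positivity : (0:ℤ) ≤ (k:ℤ)^2)]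

/-- all elements of `m` outside `S` are on exactly one missed block -/
theorem zx_of_big' (h : Crit I s X0 B0 S) {m : B} (hm : n I S m = s + 2) {x : X} (hI : I x m)
    (hx : x ∉ S) : zx I S x = 1 := by
  have hs := h.hs
  by_cases hx0 : x ∉ X0
  · exact zx_of_big h hm hI hx hx0
  push Not at hx0
  have hmN := big_not_mem h hm
  -- all other blocks through `x` have at most one element of `S`
  have h1 : ∀ b, I x b → b ≠ m → n I S b ≤ 1 := by
    intro b hb hbm
    by_contra hcon
    push Not at hcon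
    by_cases hex : ∃ y ∈ S, I y b ∧ y ∉ X0
    · obtain ⟨y, hy1, hy2, hy3⟩ := hex
      have hym : ¬ I y m := by
        intro hym
        have := uniq_elt h.pl hbm hb hI hy2 hym
        exact hx (this ▸ hy1)
      rcases caseY_x h hm hy1 hym hy3 with h2 | h2
      · have h3 := h2.2 b hy2 (by omega)
        apply h3
        rw [tau_eq_zero]
        intro t ht1 ht2 ht3
        have := uniq_elt h.pl hbm hb hI ht3 ht2
        exact hx (this ▸ ht1)
      · have h3 := yx_eq_zero h hm hy1 hym hy3
        omega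
    · push Not at hex
      have h2 : n I S b ≤ #(S ∩ X0) := by
        apply Finset.card_le_card
        intro y hy
        rw [Finset.mem_filter] at hy
        rw [Finset.mem_inter]
        exact ⟨hy.1, hex y hy.1 hy.2⟩
      have h3 := sigma_le h
      obtain ⟨y, hy⟩ : ∃ y, y ∈ ({y ∈ S | I y b} : Finset X) := by
        rw [← Finset.Nonempty, ← Finset.card_pos]
        exact lt_trans one_pos hcon
      rw [Finset.mem_filter] at hy
      have hxy : x ≠ y := by rintro rfl; exact hx hy.1
      have hbB := join_B0 h.pl hx0 (hex y hy.1 hy.2) hxy hb hy.2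
      have := size_B h hbB
      omega
  -- count at `x`
  have h2 := sum_out h hx
  rw [← Finset.add_sum_erase _ _ (mem_T.2 hI), hm] at h2
  have h3 : ∑ b ∈ (T I x).erase m, ((n I S b : ℤ) - 1) = - zx I S x := by
    have h4 : ∀ b ∈ (T I x).erase m, ((n I S b : ℤ) - 1) = if n I S b = 0 then -1 else 0 := by
      intro b hb
      rw [Finset.mem_erase, mem_T] at hb
      have h5 := h1 b hb.2 hb.1
      split_ifs with h6
      · rw [h6]; rfl
      · have : n I S b = 1 := by omega
        rw [this]; rfl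
    rw [Finset.sum_congr rfl h4, ← Finset.sum_filter, Finset.sum_const, nsmul_eq_mul]
    have h5 : ({b ∈ (T I x).erase m | n I S b = 0} : Finset B) =
        ({b ∈ T I x | n I S b = 0} : Finset B) := by
      ext b
      rw [Finset.mem_filter, Finset.mem_filter, Finset.mem_erase]
      constructor
      · rintro ⟨⟨_, h6⟩, h7⟩
        exact ⟨h6, h7⟩
      · rintro ⟨h6, h7⟩
        refine ⟨⟨?_, h6⟩, h7⟩
        rintro rfl
        omega
    rw [h5]
    unfold zx
    ring
  rw [h3] at h2
  push_cast at h2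
  omega

/-- the number of missed blocks -/
theorem zc_of_big (h : Crit I s X0 B0 S) {m : B} (hm : n I S m = s + 2) :
    (zc I S : ℤ) = (s : ℤ) ^ 2 - s - 1 := by
  have hmN := big_not_mem h hm
  have h1 := sum_zx h (h.blk m hmN)
  rw [← Finset.sum_filter_add_sum_filter_not (pts I m) (fun x => x ∈ S)] at h1
  have h2 : ∑ x ∈ pts I m with x ∈ S, zx I S x = 0 := by
    apply Finset.sum_eq_zero
    intro x hx
    rw [Finset.mem_filter] at hx
    unfold zx
    rw [Finset.card_eq_zero, Finset.filter_eq_empty_iff]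
    intro b hb hb0
    rw [mem_T] at hb
    exact (n_eq_zero.1 hb0) x hx.2 hb
  have h3 : ∑ x ∈ pts I m with x ∉ S, zx I S x = #{x ∈ pts I m | x ∉ S} := by
    rw [Finset.card_eq_sum_ones]
    apply Finset.sum_congr rfl
    intro x hx
    rw [Finset.mem_filter, mem_pts] at hx
    exact zx_of_big' h hm hx.1 hx.2
  have h4 := Finset.card_filter_add_card_filter_not (s := pts I m) (p := fun x => x ∈ S)
  have h5 : ({x ∈ pts I m | x ∈ S} : Finset X) = ({x ∈ S | I x m} : Finset X) := by
    ext x; simp [mem_pts, and_comm]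
  rw [h5, card_pts h.pl] at h4
  change n I S m + _ = _ at h4
  rw [hm] at h4
  rw [h2, h3, zero_add] at h1
  rw [h1] at h4
  have : ((s : ℤ) + 2) + zc I S = (s : ℤ) ^ 2 + 1 := by exact_mod_cast h4
  linarith

end Pool.Agent.Helper28.Baer
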