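import Pool.Agent.Helper28.Baer.CaseY2

/-!
# Critical sets (MP_06d6b9_co): the number of missed blocks if there is no big block
-/

set_option autoImplicit false
set_option linter.unusedSectionVars false

open Finset
open scoped Classical

namespace Pool.Agent.Helper28.Baer

variable {X B : Type*} [Fintype X] [Fintype B]
variable {I : X → B → Prop} {s : ℕ} {X0 : Finset X} {B0 : Finset B} {S : Finset X}

/-- the number of long blocks -/
noncomputable def NL (I : X → B → Prop) (s : ℕ) (S : Finset X) : ℕ := #{b | s ≤ n I S b}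

/-- the number of long blocks through `x` -/
noncomputable def hh (I : X → B → Prop) (s : ℕ) (S : Finset X) (x : X) : ℕ :=
  #{b ∈ T I x | s ≤ n I S b}

/-- the number of blocks with `s` elements -/
noncomputable def al (I : X → B → Prop) (s : ℕ) (S : Finset X) : ℕ := #{b | n I S b = s}

/-- the number of inner blocks with `s + 1` elements -/
noncomputable def be (I : X → B → Prop) (s : ℕ) (B0 : Finset B) (S : Finset X) : ℕ :=
  #{b ∈ B0 | n I S b = s + 1}

/-- all sizes -/
theorem sizes (h : Crit I s X0 B0 S) (hy : ∀ b, n I S b ≠ s + 2) (b : B) :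
    n I S b = 0 ∨ n I S b = 1 ∨ n I S b = 2 ∨ n I S b = s ∨ n I S b = s + 1 := by
  by_cases hb : b ∈ B0
  · have := size_B h hb; omega
  · have := size_N h hb; have := hy b; omega

theorem s_mem_B0 (h : Crit I s X0 B0 S) {b : B} (hb : n I S b = s) : b ∈ B0 := by
  by_contra hN
  have := size_N h hN
  have := h.hs
  omega

theorem sum_ind (p : B → Prop) [DecidablePred p] :
    ∑ b, (if p b then (1 : ℤ) else 0) = #{b | p b} := by
  rw [← Finset.sum_filter]; simp

theorem id1 (h : Crit I s X0 B0 S) (hy : ∀ b, n I S b ≠ s + 2) :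
    (s : ℤ) * (s - 1) * NL I s S =
      s * (s - 1) * ((s : ℤ) ^ 2 + s + 1) + 2 * (s - 1) * al I s S - 2 * zc I S := by
  have hs := h.hs
  have h1 : ∀ b, (s : ℤ) * (s - 1) * (if s ≤ n I S b then 1 else 0) =
      ((n I S b : ℤ) * n I S b - 3 * n I S b + 2) - 2 * (if n I S b = 0 then 1 else 0)
        + 2 * (s - 1) * (if n I S b = s then 1 else 0) := by
    intro b
    rcases sizes h hy b with h2 | h2 | h2 | h2 | h2
    · rw [h2, if_neg (by omega), if_pos rfl, if_neg (by omega)]; push_cast; ring
    · rw [h2, if_neg (by omega), if_neg (by omega), if_neg (by omega)]; push_cast; ring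
    · rw [h2, if_neg (by omega), if_neg (by omega), if_neg (by omega)]; push_cast; ring
    · rw [h2, if_pos le_rfl, if_neg (by omega), if_pos rfl]; push_cast; ring
    · rw [h2, if_pos (by omega), if_neg (by omega), if_neg (by omega)]; push_cast; ring
  have h2 := Finset.sum_congr (rfl : (univ : Finset B) = univ) (fun b _ => h1 b)
  rw [← Finset.mul_sum, sum_ind, Finset.sum_add_distrib, Finset.sum_sub_distrib, ← Finset.mul_sum,
    ← Finset.mul_sum, sum_ind, sum_ind, Finset.sum_add_distrib, Finset.sum_sub_distrib,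
    ← Finset.mul_sum, sum_n h.pl, sum_n_sq h.pl, Finset.sum_const, Finset.card_univ, h.pl.cardB,
    h.card, nsmul_eq_mul] at h2
  change (s : ℤ) * (s - 1) * (NL I s S : ℤ) = _ - 2 * (zc I S : ℤ) + 2 * (s - 1) * (al I s S : ℤ)
    at h2
  rw [h2]
  push_cast
  ring

theorem id2 (h : Crit I s X0 B0 S) :
    ((s : ℤ) - 1) * al I s S + s * be I s B0 S - zc I S = s * #(S ∩ X0) := by
  have hs := h.hs
  have h1 : ∀ b ∈ B0, (n I S b : ℤ) = 1 - (if n I S b = 0 then 1 else 0) +
      (s - 1) * (if n I S b = s then 1 else 0) + s * (if n I S b = s + 1 then 1 else 0) := by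
    intro b hb
    rcases size_B h hb with h2 | h2 | h2 | h2
    · rw [h2, if_pos rfl, if_neg (by omega), if_neg (by omega)]; push_cast; ring
    · rw [h2, if_neg (by omega), if_neg (by omega), if_neg (by omega)]; push_cast; ring
    · rw [h2, if_neg (by omega), if_pos rfl, if_neg (by omega)]; push_cast; ring
    · rw [h2, if_neg (by omega), if_neg (by omega), if_pos rfl]; push_cast; ring
  have h2 := sum_n_B0 h.pl S
  rw [Finset.sum_congr rfl h1, Finset.sum_add_distrib, Finset.sum_add_distrib,
    Finset.sum_sub_distrib, ← Finset.mul_sum, ← Finset.mul_sum, ← Finset.sum_filter,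
    ← Finset.sum_filter, ← Finset.sum_filter, h.card] at h2
  simp only [Finset.sum_const, nsmul_eq_mul, mul_one] at h2
  rw [h.pl.cardB0] at h2
  have h3 : ({b ∈ B0 | n I S b = 0} : Finset B) = ({b | n I S b = 0} : Finset B) := by
    ext b
    simp only [Finset.mem_filter, Finset.mem_univ, true_and]
    exact ⟨fun h => h.2, fun h' => ⟨zero_mem_B0 h h', h'⟩⟩
  have h4 : ({b ∈ B0 | n I S b = s} : Finset B) = ({b | n I S b = s} : Finset B) := by
    ext b
    simp only [Finset.mem_filter, Finset.mem_univ, true_and]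
    exact ⟨fun h => h.2, fun h' => ⟨s_mem_B0 h h', h'⟩⟩
  rw [h3, h4] at h2
  unfold zc al be
  push_cast at h2 ⊢
  linarith

theorem zc_ub (h : Crit I s X0 B0 S) : (zc I S : ℤ) ≤ (s : ℤ) ^ 2 := by
  have h1 := sum_n_B0 h.pl S
  have h2 : ∑ b ∈ B0, (n I S b : ℤ) ≤ (s + 1) * #{b ∈ B0 | n I S b ≠ 0} := by
    rw [mul_comm, ← nsmul_eq_mul, ← Finset.sum_const, Finset.sum_filter]
    apply Finset.sum_le_sum
    intro b hb
    split_ifs with h3
    · have := ub_B h hb
      exact_mod_cast this
    · push Not at h3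
      rw [h3]; simp
  rw [h1, card_nonzero h, h.card] at h2
  push_cast at h2
  by_contra hcon
  push Not at hcon
  have h3 : (s : ℤ) ^ 2 + 1 ≤ zc I S := hcon
  have h4 : (0 : ℤ) ≤ (s : ℤ) * #(S ∩ X0) := by positivity
  nlinarith [(by positivity : (0 : ℤ) ≤ (s : ℤ))]

/-- long blocks through an element outside `S` -/
theorem hh_out (h : Crit I s X0 B0 S) (hy : ∀ b, n I S b ≠ s + 2) {x : X} (hx : x ∉ S) :
    hh I s S x ≤ if x ∈ X0 then 2 else 1 := by
  have hs := h.hs
  have hsZ : (20 : ℤ) ≤ s := by exact_mod_cast hs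
  have h1 := sum_out h hx
  have h2 : ∑ b ∈ T I x, ((s : ℤ) * (if s ≤ n I S b then 1 else 0) -
      (if b ∈ B0 then 1 else 0)) ≤ ∑ b ∈ T I x, ((n I S b : ℤ) - 1) := by
    apply Finset.sum_le_sum
    intro b _
    rcases sizes h hy b with h2 | h2 | h2 | h2 | h2
    · rw [h2, if_neg (by omega), if_pos (zero_mem_B0 h h2)]; push_cast; linarith
    · rw [h2, if_neg (by omega)]; push_cast; split_ifs <;> linarith
    · rw [h2, if_neg (by omega)]; push_cast; split_ifs <;> linarith
    · rw [h2, if_pos le_rfl, if_pos (s_mem_B0 h h2)]; push_cast; linarith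
    · rw [h2, if_pos (by omega)]; push_cast; split_ifs <;> linarith
  rw [h1, Finset.sum_sub_distrib, ← Finset.mul_sum, ← Finset.sum_filter, ← Finset.sum_filter,
    Finset.sum_const, Finset.sum_const, card_T_B0 h.pl] at h2
  simp only [nsmul_eq_mul, mul_one] at h2
  change (s : ℤ) * (hh I s S x : ℤ) - _ ≤ s at h2
  split_ifs at h2 ⊢ with h3
  · push_cast at h2
    by_contra hcon
    push Not at hcon
    have : (3 : ℤ) ≤ hh I s S x := by exact_mod_cast hcon
    nlinarith
  · push_cast at h2
    by_contra hcon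
    push Not at hcon
    have : (2 : ℤ) ≤ hh I s S x := by exact_mod_cast hcon
    nlinarith

theorem hh_sum (x : X) : ∑ b ∈ T I x, (if s ≤ n I S b then (1 : ℤ) else 0) = hh I s S x := by
  rw [← Finset.sum_filter]; simp [hh]

/-- the exceptional set -/
noncomputable def FF (I : X → B → Prop) (s : ℕ) (X0 : Finset X) (S : Finset X) : Finset X :=
  {x ∈ X0 | x ∈ S ∨ hh I s S x ≤ 1}

theorem FF_sub : FF I s X0 S ⊆ X0 := Finset.filter_subset _ _

/-- the exceptional set meets a missed block in few elements -/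
theorem FF_zero (h : Crit I s X0 B0 S) (hy : ∀ b, n I S b ≠ s + 2) {g : B} (hg : n I S g = 0) :
    (n I (FF I s X0 S) g : ℤ) ≤ (s : ℤ) ^ 2 + s + 2 - NL I s S := by
  have hs := h.hs
  have hgB := zero_mem_B0 h hg
  have h1 := sum_through h.pl g (fun b => if s ≤ n I S b then (1 : ℤ) else 0)
  rw [if_neg (by omega), mul_zero, add_zero, sum_ind] at h1
  simp only [hh_sum] at h1
  change ∑ x ∈ pts I g, (hh I s S x : ℤ) = (NL I s S : ℤ) at h1
  have hout : ∀ x ∈ pts I g, x ∉ S := by
    intro x hx hxS
    rw [mem_pts] at hx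
    exact (n_eq_zero.1 hg) x hxS hx
  have h2 : ∀ x ∈ pts I g, (hh I s S x : ℤ) ≤ 1 + (if x ∈ X0 then 1 else 0) -
      (if x ∈ FF I s X0 S then 1 else 0) := by
    intro x hx
    have h3 := hh_out h hy (hout x hx)
    by_cases hx0 : x ∈ X0
    · rw [if_pos hx0] at h3
      by_cases hF : x ∈ FF I s X0 S
      · have h4 := hF
        unfold FF at h4
        rw [Finset.mem_filter] at h4
        rcases h4.2 with h5 | h5
        · exact absurd h5 (hout x hx)
        · rw [if_pos hx0, if_pos hF]
          have : (hh I s S x : ℤ) ≤ 1 := by exact_mod_cast h5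
          linarith
      · rw [if_pos hx0, if_neg hF]
        have : (hh I s S x : ℤ) ≤ 2 := by exact_mod_cast h3
        linarith
    · rw [if_neg hx0] at h3
      have hF : x ∉ FF I s X0 S := fun hF => hx0 (FF_sub hF)
      rw [if_neg hx0, if_neg hF]
      have : (hh I s S x : ℤ) ≤ 1 := by exact_mod_cast h3
      linarith
  have h3 := Finset.sum_le_sum h2
  rw [h1, Finset.sum_sub_distrib, Finset.sum_add_distrib, ← Finset.sum_filter,
    ← Finset.sum_filter] at h3
  simp only [Finset.sum_const, nsmul_eq_mul, mul_one] at h3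
  rw [card_pts h.pl, card_pts_X0 h.pl, if_pos hgB] at h3
  have h4 : ({x ∈ pts I g | x ∈ FF I s X0 S} : Finset X) =
      ({x ∈ FF I s X0 S | I x g} : Finset X) := by
    ext x; simp [mem_pts, and_comm]
  rw [h4] at h3
  change (NL I s S : ℤ) ≤ _ - (n I (FF I s X0 S) g : ℤ) at h3
  push_cast at h3
  linarith

/-- pairs of long blocks -/
theorem ineq1 (h : Crit I s X0 B0 S) (hy : ∀ b, n I S b ≠ s + 2) :
    0 ≤ (NL I s S : ℤ) * (NL I s S - 1) - 2 * ((s : ℤ) ^ 2 + s + 1 - #(FF I s X0 S)) -
      2 * s * ((s + 1) * NL I s S - al I s S) + s * (s + 1) * ((s : ℤ) ^ 2 + s + 1) := by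
  have hs := h.hs
  set N : ℤ := (NL I s S : ℤ) with hN
  -- sums over all elements
  have h1 : ∑ x : X, (hh I s S x : ℤ) = ((s : ℤ) ^ 2 + 1) * N := by
    have h2 := sum_T (I := I) (univ : Finset X) (fun b => if s ≤ n I S b then (1 : ℤ) else 0)
    simp only [hh_sum] at h2
    rw [h2]
    have h3 : ∀ b, (n I (univ : Finset X) b : ℤ) * (if s ≤ n I S b then (1 : ℤ) else 0) =
        ((s : ℤ) ^ 2 + 1) * (if s ≤ n I S b then (1 : ℤ) else 0) := by
      intro b
      rw [n_univ h.pl]; push_cast; ring
    rw [Finset.sum_congr rfl (fun b _ => h3 b), ← Finset.mul_sum, sum_ind]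
    rfl
  have h2 : ∑ x : X, (hh I s S x : ℤ) * hh I s S x = N * (N + (s : ℤ) ^ 2) := by
    have h3 : ∑ b with s ≤ n I S b, ∑ x ∈ pts I b, (hh I s S x : ℤ) = N * (N + (s : ℤ) ^ 2) := by
      have h4 : ∀ b ∈ ({b | s ≤ n I S b} : Finset B),
          ∑ x ∈ pts I b, (hh I s S x : ℤ) = N + (s : ℤ) ^ 2 := by
        intro b hb
        simp only [Finset.mem_filter_univ] at hb
        have h5 := sum_through h.pl b (fun b => if s ≤ n I S b then (1 : ℤ) else 0)
        rw [if_pos hb, mul_one, sum_ind] at h5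
        simp only [hh_sum] at h5
        exact h5
      rw [Finset.sum_congr rfl h4, Finset.sum_const, nsmul_eq_mul]
      rfl
    rw [← h3]
    unfold pts
    simp_rw [Finset.sum_filter]
    rw [← Finset.sum_filter, Finset.sum_comm]
    apply Finset.sum_congr rfl
    intro x _
    rw [← Finset.sum_filter, Finset.sum_const, nsmul_eq_mul]
    congr 2
    unfold hh
    congr 1
    ext b
    simp [mem_T, and_comm]
  have h3 : ∑ x ∈ S, (hh I s S x : ℤ) = (s + 1) * N - al I s S := by
    have h4 := sum_T (I := I) S (fun b => if s ≤ n I S b then (1 : ℤ) else 0)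
    simp only [hh_sum] at h4
    rw [h4]
    have h5 : ∀ b, (n I S b : ℤ) * (if s ≤ n I S b then (1 : ℤ) else 0) =
        ((s : ℤ) + 1) * (if s ≤ n I S b then (1 : ℤ) else 0) - (if n I S b = s then 1 else 0) := by
      intro b
      rcases sizes h hy b with h2 | h2 | h2 | h2 | h2
      · rw [h2, if_neg (by omega), if_neg (by omega)]; push_cast; ring
      · rw [h2, if_neg (by omega), if_neg (by omega)]; push_cast; ring
      · rw [h2, if_neg (by omega), if_neg (by omega)]; push_cast; ring
      · rw [h2, if_pos le_rfl, if_pos rfl]; push_cast; ring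
      · rw [h2, if_pos (by omega), if_neg (by omega)]; push_cast; ring
    rw [Finset.sum_congr rfl (fun b _ => h5 b), Finset.sum_sub_distrib, ← Finset.mul_sum, sum_ind,
      sum_ind]
    rfl
  -- elements outside `S`
  have h4 : ∑ x ∈ Sᶜ, ((hh I s S x : ℤ) * hh I s S x - hh I s S x) =
      2 * ((s : ℤ) ^ 2 + s + 1 - #(FF I s X0 S)) := by
    have h5 : ∀ x ∈ Sᶜ, ((hh I s S x : ℤ) * hh I s S x - hh I s S x) =
        2 * (if x ∈ X0 \ FF I s X0 S then 1 else 0) := by
      intro x hx
      rw [Finset.mem_compl] at hx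
      have h6 := hh_out h hy hx
      by_cases hx0 : x ∈ X0
      · rw [if_pos hx0] at h6
        by_cases h7 : hh I s S x ≤ 1
        · have h8 : x ∉ X0 \ FF I s X0 S := by
            rw [Finset.mem_sdiff, not_and, not_not]
            intro _
            unfold FF
            rw [Finset.mem_filter]
            exact ⟨hx0, Or.inr h7⟩
          rw [if_neg h8]
          have h9 : hh I s S x = 0 ∨ hh I s S x = 1 := by omega
          rcases h9 with h9 | h9 <;> rw [h9] <;> norm_num
        · have h8 : x ∈ X0 \ FF I s X0 S := by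
            rw [Finset.mem_sdiff]
            refine ⟨hx0, ?_⟩
            unfold FF
            rw [Finset.mem_filter]
            rintro ⟨-, h9 | h9⟩
            · exact hx h9
            · exact h7 h9
          rw [if_pos h8]
          have h9 : hh I s S x = 2 := by omega
          rw [h9]; norm_num
      · rw [if_neg hx0] at h6
        have h8 : x ∉ X0 \ FF I s X0 S := by
          rw [Finset.mem_sdiff]
          rintro ⟨h9, -⟩
          exact hx0 h9
        rw [if_neg h8]
        have h9 : hh I s S x = 0 ∨ hh I s S x = 1 := by omega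
        rcases h9 with h9 | h9 <;> rw [h9] <;> norm_num
    rw [Finset.sum_congr rfl h5, ← Finset.mul_sum, ← Finset.sum_filter]
    simp only [Finset.sum_const, nsmul_eq_mul, mul_one]
    have h6 : ({x ∈ Sᶜ | x ∈ X0 \ FF I s X0 S} : Finset X) = X0 \ FF I s X0 S := by
      ext x
      rw [Finset.mem_filter, Finset.mem_compl]
      constructor
      · rintro ⟨-, h7⟩; exact h7
      · intro h7
        refine ⟨?_, h7⟩
        intro hxS
        rw [Finset.mem_sdiff] at h7
        apply h7.2
        unfold FF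
        rw [Finset.mem_filter]
        exact ⟨h7.1, Or.inl hxS⟩
    have h7 := Finset.card_sdiff_add_card_eq_card (FF_sub (I := I) (s := s) (X0 := X0) (S := S))
    rw [h.pl.cardX0] at h7
    have h8 : (#(X0 \ FF I s X0 S) : ℤ) + #(FF I s X0 S) = (s : ℤ) ^ 2 + s + 1 := by
      exact_mod_cast h7
    rw [h6]
    linarith
  have h5 : ∑ x ∈ S, ((hh I s S x : ℤ) * hh I s S x - hh I s S x) +
      ∑ x ∈ Sᶜ, ((hh I s S x : ℤ) * hh I s S x - hh I s S x) =
      ∑ x : X, ((hh I s S x : ℤ) * hh I s S x - hh I s S x) :=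
    Finset.sum_add_sum_compl S _
  rw [Finset.sum_sub_distrib (s := univ), h1, h2, h4, Finset.sum_sub_distrib, h3] at h5
  -- the square
  have h6 : 0 ≤ ∑ x ∈ S, ((hh I s S x : ℤ) - s) * ((hh I s S x : ℤ) - s - 1) := by
    apply Finset.sum_nonneg
    intro x _
    rcases le_or_gt ((hh I s S x : ℤ)) s with h7 | h7
    · nlinarith
    · have : (s : ℤ) + 1 ≤ hh I s S x := h7
      nlinarith
  have h7 : ∀ x ∈ S, ((hh I s S x : ℤ) - s) * ((hh I s S x : ℤ) - s - 1) =
      (hh I s S x : ℤ) * hh I s S x - (2 * s + 1) * hh I s S x + s * (s + 1) := by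
    intro x _; ring
  rw [Finset.sum_congr rfl h7, Finset.sum_add_distrib, Finset.sum_sub_distrib, ← Finset.mul_sum,
    h3, Finset.sum_const, h.card, nsmul_eq_mul] at h6
  push_cast at h6
  nlinarith

end Pool.Agent.Helper28.Baer
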