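import Mathlib

/-!
# Numerical lemmas for MP_06d6b9_co
-/

set_option autoImplicit false

namespace Pool.Agent.Helper28.Baer.Num

theorem j_nonneg {t β σ j : ℤ} (ht : 20 ≤ t) (e2 : (t - 1) * j = 2 * (β - σ)) (hβ : 0 ≤ β)
    (hσ : σ ≤ 4) : 0 ≤ j := by
  by_contra hcon
  push Not at hcon
  nlinarith

theorem j_le {t z a j : ℤ} (ht : 20 ≤ t) (e1 : t * (t - 1) * j = 2 * z - 2 * (t - 1) * a)
    (ha : 0 ≤ a) (hz : z ≤ t ^ 2) : j ≤ 2 := by
  by_contra hcon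
  push Not at hcon
  have h3 : 3 ≤ j := hcon
  have h4 : 0 ≤ t * (t - 1) := by nlinarith
  have h5 := mul_le_mul_of_nonneg_left h3 h4
  have h6 : 0 ≤ (t - 1) * a := mul_nonneg (by linarith) ha
  nlinarith

theorem case0 {t z a : ℤ} (ht : 20 ≤ t) (e5 : z = (t - 1) * a) (hz : z ≤ t ^ 2)
    (hz' : t ^ 2 - 3 * t + 4 ≤ z) : a = t - 1 ∨ a = t ∨ a = t + 1 := by
  have h1 : a ≤ t + 1 := by
    by_contra hcon
    push Not at hcon
    have h2 : t + 2 ≤ a := by omega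
    nlinarith
  have h2 : t - 1 ≤ a := by
    by_contra hcon
    push Not at hcon
    have h2 : a ≤ t - 2 := by omega
    nlinarith
  omega

theorem case0' {t f A : ℤ} (ht : 20 ≤ t) (hf : 2 * t + 1 ≤ f)
    (g9 : A ^ 2 ≤ 3 * t * (f * (f - 1) + A)) (g10 : f * (t + 1) - (t - 1) ^ 2 ≤ A) : False := by
  have g0 : (2 * t + 1) * (t + 1) ≤ f * (t + 1) := mul_le_mul_of_nonneg_right hf (by linarith)
  have g11 : f * (t + 1) ≤ 2 * A := by nlinarith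
  have g12 : f * (t + 1) ≤ 2 * (A - 3 * t) := by nlinarith
  have g13 : 0 ≤ f * (t + 1) := by nlinarith
  have g14 : (f * (t + 1)) * (f * (t + 1)) ≤ (2 * A) * (2 * (A - 3 * t)) :=
    mul_le_mul g11 g12 g13 (by linarith)
  have g16 : 0 < f * f := by nlinarith
  have g17 : 0 < (t + 1) ^ 2 - 12 * t := by nlinarith
  have g18 := mul_pos g16 g17
  have g19 : 0 ≤ 3 * t * f := by nlinarith
  nlinarith

theorem case1 {t z f a : ℤ} (ht : 20 ≤ t) (e1 : t * (t - 1) = 2 * z - 2 * (t - 1) * a)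
    (e3 : 2 * f ≥ 2 * (t ^ 2 + t + 1) - 2 * t * a)
    (e4 : f * (t + 1) ≤ 2 * z + (t + 1) * (t ^ 2 + t + 1 - z))
    (hz : z ≤ t ^ 2) (hz' : t ^ 2 - 3 * t + 4 ≤ z) : False := by
  have h1 : 2 * (t - 1) * a ≤ t ^ 2 + t := by linarith
  have h2 : (t - 1) * z ≤ (t + 1) * (t ^ 2 + t + 1 - f) := by linarith
  have h3 : t ^ 2 + t + 1 - f ≤ t * a := by linarith
  have h4 : (t - 1) * (t ^ 2 - 3 * t + 4) ≤ (t - 1) * z :=
    mul_le_mul_of_nonneg_left hz' (by linarith)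
  have h5 : (t - 1) * (t ^ 2 - 3 * t + 4) ≤ (t + 1) * (t * a) :=
    (h4.trans h2).trans (mul_le_mul_of_nonneg_left h3 (by linarith))
  have h6 : 2 * (t - 1) * ((t - 1) * (t ^ 2 - 3 * t + 4)) ≤ 2 * (t - 1) * ((t + 1) * (t * a)) :=
    mul_le_mul_of_nonneg_left h5 (by linarith)
  have h7 : 2 * (t - 1) * ((t + 1) * (t * a)) ≤ (t + 1) * t * (t ^ 2 + t) := by
    have h8 : 0 ≤ (t + 1) * t := by nlinarith
    have := mul_le_mul_of_nonneg_left h1 h8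
    linarith
  have h8 : 2 * (t - 1) * ((t - 1) * (t ^ 2 - 3 * t + 4)) ≤ (t + 1) * t * (t ^ 2 + t) :=
    h6.trans h7
  have h9 : 0 ≤ t ^ 3 * (t - 20) := mul_nonneg (by positivity) (by linarith)
  have h10 : 0 ≤ t ^ 2 * (t - 20) := mul_nonneg (by positivity) (by linarith)
  have h11 : 0 ≤ t * (t - 20) := mul_nonneg (by linarith) (by linarith)
  nlinarith

theorem case2 {t z f a : ℤ} (ht : 20 ≤ t) (e1 : t * (t - 1) * 2 = 2 * z - 2 * (t - 1) * a)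
    (e3 : 2 * f ≥ 2 * (t ^ 2 + t + 1) - 2 * t * a - 2)
    (e4 : f * (t + 1) ≤ 3 * z + (t + 1) * (t ^ 2 + t + 1 - z)) (ha : 0 ≤ a)
    (hz : z ≤ t ^ 2) (hz' : t ^ 2 - 3 * t + 4 ≤ z) : False := by
  have h1 : z = (t - 1) * (t + a) := by linarith
  have h2 : a ≤ 1 := by
    by_contra hcon
    push Not at hcon
    have h2 : 2 ≤ a := hcon
    nlinarith
  have h3 : t ^ 2 ≤ f := by nlinarith
  have h4 : (t - 2) * z ≤ (t + 1) * (t ^ 2 + t + 1 - f) := by linarith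
  have h5 : (t - 2) * (t ^ 2 - 3 * t + 4) ≤ (t - 2) * z :=
    mul_le_mul_of_nonneg_left hz' (by linarith)
  have h6 : (t + 1) * (t ^ 2 + t + 1 - f) ≤ (t + 1) * (t + 1) :=
    mul_le_mul_of_nonneg_left (by linarith) (by linarith)
  have h7 : (t - 2) * (t ^ 2 - 3 * t + 4) ≤ (t + 1) * (t + 1) := (h5.trans h4).trans h6
  have h8 : 0 ≤ t ^ 2 * (t - 20) := mul_nonneg (by positivity) (by linarith)
  have h9 : 0 ≤ t * (t - 20) := mul_nonneg (by linarith) (by linarith)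
  nlinarith

theorem e3_of {t f a j N : ℤ} (hN : N = t ^ 2 + t + 1 - j)
    (h : 0 ≤ N * (N - 1) - 2 * (t ^ 2 + t + 1 - f) - 2 * t * ((t + 1) * N - a) +
      t * (t + 1) * (t ^ 2 + t + 1)) :
    2 * f ≥ 2 * (t ^ 2 + t + 1) - 2 * t * a + j - j ^ 2 := by
  subst hN
  linarith

end Pool.Agent.Helper28.Baer.Num
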