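import Pool.Agent.Helper28.Baer.CaseZ
import Pool.Agent.Helper28.Baer.Num

/-!
# Critical sets (MP_06d6b9_co): the number of missed blocks if there is no big block, conclusion
-/

set_option autoImplicit false
set_option linter.unusedSectionVars false

open Finset
open scoped Classical

namespace Pool.Agent.Helper28.Baer

variable {X B : Type*} [Fintype X] [Fintype B]
variable {I : X → B → Prop} {s : ℕ} {X0 : Finset X} {B0 : Finset B} {S : Finset X}

theorem zero_filter (h : Crit I s X0 B0 S) :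
    ({b ∈ B0 | n I S b = 0} : Finset B) = ({b | n I S b = 0} : Finset B) := by
  ext b
  simp only [Finset.mem_filter, Finset.mem_univ, true_and]
  exact ⟨fun h => h.2, fun h' => ⟨zero_mem_B0 h h', h'⟩⟩

theorem nF_le (h : Crit I s X0 B0 S) {b : B} (hb : b ∈ B0) :
    (n I (FF I s X0 S) b : ℤ) ≤ s + 1 := by
  have h1 : n I (FF I s X0 S) b ≤ s + 1 := by
    rw [← h.pl.b1 b hb]
    apply Finset.card_le_card
    intro x hx
    rw [Finset.mem_filter] at hx ⊢
    exact ⟨FF_sub hx.1, hx.2⟩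
  exact_mod_cast h1

/-- the size of the exceptional set -/
theorem FF_le (h : Crit I s X0 B0 S) (hy : ∀ b, n I S b ≠ s + 2) :
    (#(FF I s X0 S) : ℤ) * (s + 1) ≤
      ((s : ℤ) ^ 2 + s + 2 - NL I s S) * zc I S + (s + 1) * ((s : ℤ) ^ 2 + s + 1 - zc I S) := by
  rw [← sum_nF h.pl (FF_sub (I := I) (s := s) (X0 := X0) (S := S)),
    ← Finset.sum_filter_add_sum_filter_not B0 (fun b => n I S b = 0), zero_filter h]
  have h1 : ∑ b with n I S b = 0, (n I (FF I s X0 S) b : ℤ) ≤
      ∑ b with n I S b = 0, ((s : ℤ) ^ 2 + s + 2 - NL I s S) := by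
    apply Finset.sum_le_sum
    intro b hb
    simp only [Finset.mem_filter_univ] at hb
    exact FF_zero h hy hb
  have h2 : ∑ b ∈ B0 with ¬ n I S b = 0, (n I (FF I s X0 S) b : ℤ) ≤
      ∑ b ∈ B0 with ¬ n I S b = 0, ((s : ℤ) + 1) := by
    apply Finset.sum_le_sum
    intro b hb
    rw [Finset.mem_filter] at hb
    exact nF_le h hb.1
  rw [Finset.sum_const, nsmul_eq_mul] at h1 h2
  have h3 := card_nonzero h
  have h4 : (#{b ∈ B0 | ¬ n I S b = 0} : ℤ) = (s : ℤ) ^ 2 + s + 1 - zc I S := h3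
  rw [h4] at h2
  change _ ≤ (zc I S : ℤ) * _ at h1
  linarith

/-- the number of missed blocks if there is no big block -/
theorem zc_of_not_big (h : Crit I s X0 B0 S) (hy : ∀ b, n I S b ≠ s + 2) :
    (zc I S : ℤ) = (s : ℤ) ^ 2 - s ∨ (zc I S : ℤ) = (s : ℤ) ^ 2 - 1 := by
  have hs : (20 : ℤ) ≤ s := by exact_mod_cast h.hs
  have i1 := id1 h hy
  have i2 := id2 h
  have i3 := zc_ub h
  have i4 := zc_lb h
  have i5 := ineq1 h hy
  have i6 := FF_le h hy
  have i7 := sigma_le h
  have i8 : (#(S ∩ X0) : ℤ) ≤ 4 := by exact_mod_cast i7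
  have i9 : (0 : ℤ) ≤ al I s S := by positivity
  have i10 : (0 : ℤ) ≤ be I s B0 S := by positivity
  obtain ⟨j, hj⟩ : ∃ j : ℤ, (NL I s S : ℤ) = (s : ℤ) ^ 2 + s + 1 - j :=
    ⟨_, (sub_sub_cancel _ _).symm⟩
  have e3 := Num.e3_of hj i5
  rw [hj] at i1 i6
  have e1 : (s : ℤ) * (s - 1) * j = 2 * (zc I S : ℤ) - 2 * (s - 1) * (al I s S : ℤ) := by
    linarith
  have e2 : ((s : ℤ) - 1) * j = 2 * ((be I s B0 S : ℤ) - #(S ∩ X0)) := by
    have : (s : ℤ) * (((s : ℤ) - 1) * j) = s * (2 * ((be I s B0 S : ℤ) - #(S ∩ X0))) := by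
      linarith
    exact mul_left_cancel₀ (by linarith) this
  have e4 : (#(FF I s X0 S) : ℤ) * (s + 1) ≤
      (1 + j) * zc I S + (s + 1) * ((s : ℤ) ^ 2 + s + 1 - zc I S) := by linarith
  have hj0 := Num.j_nonneg hs e2 i10 i8
  have hj2 := Num.j_le hs e1 i9 i3
  have hj3 : j = 0 ∨ j = 1 ∨ j = 2 := by omega
  rcases hj3 with rfl | rfl | rfl
  · -- `j = 0`
    have e5 : (zc I S : ℤ) = ((s : ℤ) - 1) * al I s S := by linarith
    rcases Num.case0 hs e5 i3 i4 with h3 | h3 | h3
    · exfalso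
      have hz1 : (zc I S : ℤ) = ((s : ℤ) - 1) ^ 2 := by rw [e5, h3]; ring
      have hf1 : 2 * (s : ℤ) + 1 ≤ #(FF I s X0 S) := by rw [h3] at e3; linarith
      -- the sums over missed blocks and over the others
      have g1 := sum_nF h.pl (FF_sub (I := I) (s := s) (X0 := X0) (S := S))
      have g2 := sum_nF_sq h.pl (FF_sub (I := I) (s := s) (X0 := X0) (S := S))
      rw [← Finset.sum_filter_add_sum_filter_not B0 (fun b => n I S b = 0), zero_filter h] at g1 g2
      have hle1 : ∀ b ∈ ({b | n I S b = 0} : Finset B), (n I (FF I s X0 S) b : ℤ) ≤ 1 := by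
        intro b hb
        simp only [Finset.mem_filter_univ] at hb
        have := FF_zero h hy hb
        rw [hj] at this
        linarith
      have g3 : ∑ b with n I S b = 0, (n I (FF I s X0 S) b : ℤ) * n I (FF I s X0 S) b =
          ∑ b with n I S b = 0, (n I (FF I s X0 S) b : ℤ) := by
        apply Finset.sum_congr rfl
        intro b hb
        have h4 := hle1 b hb
        have h5 : n I (FF I s X0 S) b ≤ 1 := by exact_mod_cast h4
        have h6 : n I (FF I s X0 S) b = 0 ∨ n I (FF I s X0 S) b = 1 := by omega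
        rcases h6 with h6 | h6 <;> rw [h6] <;> norm_num
      have g4 : ∑ b with n I S b = 0, (n I (FF I s X0 S) b : ℤ) ≤ zc I S := by
        calc _ ≤ ∑ b with n I S b = 0, (1 : ℤ) := Finset.sum_le_sum hle1
          _ = zc I S := by rw [Finset.sum_const, nsmul_eq_mul, mul_one]; rfl
      have g5 := sq_sum_le_card_mul_sum_sq (s := ({b ∈ B0 | ¬ n I S b = 0} : Finset B))
        (f := fun b => (n I (FF I s X0 S) b : ℤ))
      have g6 : (#{b ∈ B0 | ¬ n I S b = 0} : ℤ) = (s : ℤ) ^ 2 + s + 1 - zc I S := card_nonzero h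
      rw [g6] at g5
      have g7 : ∑ b ∈ B0 with ¬ n I S b = 0, (n I (FF I s X0 S) b : ℤ) ^ 2 =
          ∑ b ∈ B0 with ¬ n I S b = 0, (n I (FF I s X0 S) b : ℤ) * n I (FF I s X0 S) b :=
        Finset.sum_congr rfl fun b _ => sq _
      rw [g7] at g5
      rw [g3] at g2
      generalize ∑ b ∈ B0 with ¬ n I S b = 0, (n I (FF I s X0 S) b : ℤ) * n I (FF I s X0 S) b = A2
        at g2 g5
      generalize ∑ b ∈ B0 with ¬ n I S b = 0, (n I (FF I s X0 S) b : ℤ) = A at g1 g5
      generalize ∑ b with n I S b = 0, (n I (FF I s X0 S) b : ℤ) = Z1 at g1 g2 g4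
      generalize (#(FF I s X0 S) : ℤ) = f at g1 g2 hf1
      generalize (zc I S : ℤ) = z at hz1 g4 g5
      clear e3 e4 e5 i1 i2 i3 i4 i5 i6 i7 i8 i9 i10 g3 g6 g7 hle1 e1 e2
      have g8 : A2 = f * (f - 1) + A := by linarith
      rw [g8, hz1] at g5
      rw [hz1] at g4
      refine Num.case0' (A := A) hs hf1 ?_ (by linarith)
      refine g5.trans (le_of_eq ?_)
      ring
    · left
      rw [e5, h3]; ring
    · right
      rw [e5, h3]; ring
  · -- `j = 1`
    exfalso
    exact Num.case1 (z := zc I S) (f := #(FF I s X0 S)) (a := al I s S) hs (by linarith)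
      (by linarith) (by linarith) i3 i4
  · -- `j = 2`
    exfalso
    exact Num.case2 (z := zc I S) (f := #(FF I s X0 S)) (a := al I s S) hs (by linarith)
      (by linarith) (by linarith) i9 i3 i4

end Pool.Agent.Helper28.Baer
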