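import Pool.Agent.Helper28.Baer.Basic

/-!
# Critical sets (MP_06d6b9_co): bounds, the cost function
-/

set_option autoImplicit false
set_option linter.unusedSectionVars false

open Finset
open scoped Classical

namespace Pool.Agent.Helper28.Baer

variable {X B : Type*} [Fintype X] [Fintype B]

/-- A critical set: `s ^ 2 + s + 1` elements meeting every block outside the subplane and missing
a block of the subplane. -/
structure Crit (I : X → B → Prop) (s : ℕ) (X0 : Finset X) (B0 : Finset B) (S : Finset X) :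
    Prop where
  pl : Pl I s X0 B0
  hs : 20 ≤ s
  card : #S = s ^ 2 + s + 1
  blk : ∀ b ∉ B0, 1 ≤ n I S b
  miss : ∃ g ∈ B0, n I S g = 0

/-- the number of missed blocks -/
noncomputable def zc (I : X → B → Prop) (S : Finset X) : ℕ := #{b | n I S b = 0}

/-- the number of missed blocks through `x` -/
noncomputable def zx (I : X → B → Prop) (S : Finset X) (x : X) : ℕ := #{b ∈ T I x | n I S b = 0}

/-- the number of `(s+2)`-blocks -/
noncomputable def yc (I : X → B → Prop) (s : ℕ) (S : Finset X) : ℕ := #{b | n I S b = s + 2}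

/-- the cost of a block -/
noncomputable def cost (I : X → B → Prop) (s : ℕ) (S : Finset X) (b : B) : ℤ :=
  ((n I S b : ℤ) - 1) * (s + 1 - n I S b) + (if n I S b = 0 then (s : ℤ) + 1 else 0) +
    (if n I S b = s + 2 then (s : ℤ) + 1 else 0)

variable {I : X → B → Prop} {s : ℕ} {X0 : Finset X} {B0 : Finset B} {S : Finset X}

theorem n_eq_zero {b : B} : n I S b = 0 ↔ ∀ x ∈ S, ¬ I x b := by
  unfold n
  rw [Finset.card_eq_zero, Finset.filter_eq_empty_iff]

theorem n_pos {x : X} {b : B} (hx : x ∈ S) (h : I x b) : 1 ≤ n I S b := by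
  unfold n
  rw [Nat.one_le_iff_ne_zero, Finset.card_ne_zero]
  exact ⟨x, by simp [hx, h]⟩

theorem zero_mem_B0 (h : Crit I s X0 B0 S) {b : B} (hb : n I S b = 0) : b ∈ B0 := by
  by_contra hn
  have := h.blk b hn
  omega

/-- sum through an element outside `S` -/
theorem sum_out (h : Crit I s X0 B0 S) {x : X} (hx : x ∉ S) :
    ∑ b ∈ T I x, ((n I S b : ℤ) - 1) = s := by
  rw [Finset.sum_sub_distrib, sum_n_T h.pl, if_neg hx, h.card, Finset.sum_const, card_T h.pl]
  simp

/-- sum through an element of `S` -/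
theorem sum_in (h : Crit I s X0 B0 S) {x : X} (hx : x ∈ S) :
    ∑ b ∈ T I x, ((n I S b : ℤ) - 1) = (s : ℤ) ^ 2 + s := by
  rw [Finset.sum_sub_distrib, sum_n_T h.pl, if_pos hx, h.card, Finset.sum_const, card_T h.pl]
  simp
  ring

/-- splitting the sum through an element outside `S` -/
theorem sum_out' (h : Crit I s X0 B0 S) {x : X} (hx : x ∉ S) :
    ∑ b ∈ T I x with b ∉ B0, ((n I S b : ℤ) - 1) + ∑ b ∈ T I x with b ∈ B0, (n I S b : ℤ) =
      if x ∈ X0 then 2 * (s : ℤ) + 1 else s + 1 := by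
  have h1 := sum_out h hx
  rw [← Finset.sum_filter_add_sum_filter_not (T I x) (fun b => b ∈ B0)] at h1
  have h2 : ∑ b ∈ T I x with b ∈ B0, ((n I S b : ℤ) - 1) =
      ∑ b ∈ T I x with b ∈ B0, (n I S b : ℤ) - (#{b ∈ T I x | b ∈ B0} : ℤ) := by
    rw [Finset.sum_sub_distrib]; simp
  rw [h2, card_T_B0 h.pl] at h1
  split_ifs at h1 ⊢ <;> push_cast at h1 <;> linarith

theorem le_out_N (h : Crit I s X0 B0 S) {x : X} (hx : x ∉ S) {b : B} (hb : b ∉ B0) (hI : I x b) :
    (n I S b : ℤ) - 1 ≤ if x ∈ X0 then 2 * (s : ℤ) + 1 else s + 1 := by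
  rw [← sum_out' h hx]
  have h1 : ∀ c ∈ ({b ∈ T I x | b ∉ B0} : Finset B), (0 : ℤ) ≤ (n I S c : ℤ) - 1 := by
    intro c hc
    rw [Finset.mem_filter] at hc
    have := h.blk c hc.2
    omega
  have h2 := Finset.single_le_sum h1 (show b ∈ ({b ∈ T I x | b ∉ B0} : Finset B) by
    simp [mem_T, hI, hb])
  have h3 : (0 : ℤ) ≤ ∑ b ∈ T I x with b ∈ B0, (n I S b : ℤ) :=
    Finset.sum_nonneg fun _ _ => by positivity
  linarith

theorem le_out_B (h : Crit I s X0 B0 S) {x : X} (hx : x ∉ S) {b : B} (hb : b ∈ B0) (hI : I x b) :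
    (n I S b : ℤ) ≤ if x ∈ X0 then 2 * (s : ℤ) + 1 else s + 1 := by
  rw [← sum_out' h hx]
  have h1 : (0 : ℤ) ≤ ∑ b ∈ T I x with b ∉ B0, ((n I S b : ℤ) - 1) :=
    Finset.sum_nonneg fun c hc => by
      rw [Finset.mem_filter] at hc
      have := h.blk c hc.2
      omega
  have h2 := Finset.single_le_sum (f := fun b => (n I S b : ℤ)) (s := {b ∈ T I x | b ∈ B0})
    (fun _ _ => by positivity) (show b ∈ ({b ∈ T I x | b ∈ B0} : Finset B) by
    simp [mem_T, hI, hb])
  linarith

/-- a block with few elements of `S` has an element outside `S` and outside the subplane -/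
theorem exists_free (h : Crit I s X0 B0 S) (b : B)
    (hb : n I S b + (if b ∈ B0 then s + 1 else 1) < s ^ 2 + 1) : ∃ x, I x b ∧ x ∉ S ∧ x ∉ X0 := by
  by_contra hcon
  push Not at hcon
  have h1 : pts I b ⊆ ({x ∈ S | I x b} : Finset X) ∪ ({x ∈ pts I b | x ∈ X0} : Finset X) := by
    intro x hx
    rw [mem_pts] at hx
    rw [Finset.mem_union, Finset.mem_filter, Finset.mem_filter, mem_pts]
    by_cases hS : x ∈ S
    · exact Or.inl ⟨hS, hx⟩
    · exact Or.inr ⟨hx, hcon x hx hS⟩
  have h2 := (Finset.card_le_card h1).trans (Finset.card_union_le _ _)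
  rw [card_pts h.pl, card_pts_X0 h.pl] at h2
  change s ^ 2 + 1 ≤ n I S b + _ at h2
  omega

theorem ub_B (h : Crit I s X0 B0 S) {b : B} (hb : b ∈ B0) : n I S b ≤ s + 1 := by
  have hs := h.hs
  obtain ⟨g, hg, hg0⟩ := h.miss
  by_cases hbg : b = g
  · rw [hbg, hg0]; omega
  obtain ⟨x, hx1, hx2⟩ := exists_meet h.pl hbg
  have hxS : x ∉ S := fun hx => (n_eq_zero.1 hg0) x hx hx2
  have h1 := le_out_B h hxS hb hx1
  have h2 : (n I S b : ℤ) ≤ 2 * s + 1 := by
    refine h1.trans ?_
    split_ifs <;> linarith [(by positivity : (0 : ℤ) ≤ s)]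
  have h3 : n I S b ≤ 2 * s + 1 := by exact_mod_cast h2
  obtain ⟨y, hy1, hy2, hy3⟩ := exists_free h b (by rw [if_pos hb]; nlinarith)
  have h4 := le_out_B h hy2 hb hy1
  rw [if_neg hy3] at h4
  exact_mod_cast h4

theorem ub_N (h : Crit I s X0 B0 S) {b : B} (hb : b ∉ B0) : n I S b ≤ s + 2 := by
  have hs := h.hs
  obtain ⟨g, hg, hg0⟩ := h.miss
  have hbg : b ≠ g := fun e => hb (e ▸ hg)
  obtain ⟨x, hx1, hx2⟩ := exists_meet h.pl hbg
  have hxS : x ∉ S := fun hx => (n_eq_zero.1 hg0) x hx hx2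
  have h1 := le_out_N h hxS hb hx1
  have h2 : (n I S b : ℤ) - 1 ≤ 2 * s + 1 := by
    refine h1.trans ?_
    split_ifs <;> linarith [(by positivity : (0 : ℤ) ≤ s)]
  have h3 : n I S b ≤ 2 * s + 2 := by omega
  obtain ⟨y, hy1, hy2, hy3⟩ := exists_free h b (by rw [if_neg hb]; nlinarith)
  have h4 := le_out_N h hy2 hb hy1
  rw [if_neg hy3] at h4
  omega

theorem ub (h : Crit I s X0 B0 S) (b : B) : n I S b ≤ s + 2 := by
  by_cases hb : b ∈ B0
  · exact (ub_B h hb).trans (by omega)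
  · exact ub_N h hb

theorem cost_nonneg (h : Crit I s X0 B0 S) (b : B) : 0 ≤ cost I s S b := by
  have h1 := ub h b
  have hs := h.hs
  unfold cost
  by_cases h0 : n I S b = 0
  · rw [if_pos h0, if_neg (by omega), h0]; push_cast; linarith
  · by_cases h2 : n I S b = s + 2
    · rw [if_neg h0, if_pos h2, h2]; push_cast; nlinarith
    · rw [if_neg h0, if_neg h2]
      have h3 : (1 : ℤ) ≤ n I S b := by exact_mod_cast Nat.one_le_iff_ne_zero.2 h0
      have h4 : (n I S b : ℤ) ≤ s + 1 := by exact_mod_cast (by omega : n I S b ≤ s + 1)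
      have := mul_nonneg (sub_nonneg.2 h3) (sub_nonneg.2 h4)
      linarith

theorem cost_eq {b : B} (h1 : 1 ≤ n I S b) (h2 : n I S b ≤ s + 1) :
    cost I s S b = ((n I S b : ℤ) - 1) * (s + 1 - n I S b) := by
  unfold cost
  rw [if_neg (by omega), if_neg (by omega)]
  ring

theorem sum_cost (h : Crit I s X0 B0 S) :
    ∑ b, cost I s S b = (s + 1) * ((zc I S : ℤ) + yc I s S) := by
  unfold cost
  rw [Finset.sum_add_distrib, Finset.sum_add_distrib]
  have h1 : ∑ b, (((n I S b : ℤ) - 1) * (s + 1 - n I S b)) = 0 := by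
    have h2 : ∀ b, ((n I S b : ℤ) - 1) * (s + 1 - n I S b) =
        (s + 2) * (n I S b : ℤ) - (n I S b : ℤ) * n I S b - (s + 1) := by intro b; ring
    rw [Finset.sum_congr rfl (fun b _ => h2 b), Finset.sum_sub_distrib, Finset.sum_sub_distrib,
      ← Finset.mul_sum, sum_n h.pl, sum_n_sq h.pl, h.card, Finset.sum_const, Finset.card_univ,
      h.pl.cardB, nsmul_eq_mul]
    push_cast
    ring
  rw [h1, ← Finset.sum_filter, ← Finset.sum_filter, Finset.sum_const, Finset.sum_const]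
  simp only [nsmul_eq_mul]
  unfold zc yc
  ring

/-- cost at the elements of a block, without the block -/
theorem sum_cost_rest (h : Crit I s X0 B0 S) (l : B) :
    ∑ x ∈ pts I l, (∑ b ∈ T I x, cost I s S b - cost I s S l) =
      (s + 1) * ((zc I S : ℤ) + yc I s S) - cost I s S l := by
  rw [Finset.sum_sub_distrib, sum_through h.pl, Finset.sum_const, card_pts h.pl, sum_cost h,
    nsmul_eq_mul]
  push_cast
  ring

theorem rest_nonneg (h : Crit I s X0 B0 S) {l : B} {x : X} (hx : I x l) :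
    0 ≤ ∑ b ∈ T I x, cost I s S b - cost I s S l := by
  rw [sub_nonneg]
  exact Finset.single_le_sum (f := fun b => cost I s S b) (fun b _ => cost_nonneg h b)
    (mem_T.2 hx)

theorem zx_le_one (h : Crit I s X0 B0 S) {x : X} (hx : x ∉ X0) : zx I S x ≤ 1 := by
  unfold zx
  rw [Finset.card_le_one]
  intro b hb c hc
  rw [Finset.mem_filter, mem_T] at hb hc
  exact uniq_B0 h.pl hx (zero_mem_B0 h hb.2) (zero_mem_B0 h hc.2) hb.1 hc.1

theorem zx_le (h : Crit I s X0 B0 S) (x : X) : zx I S x ≤ s + 1 := by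
  have h1 : zx I S x ≤ #{b ∈ T I x | b ∈ B0} := by
    apply Finset.card_le_card
    intro b hb
    rw [Finset.mem_filter] at hb ⊢
    exact ⟨hb.1, zero_mem_B0 h hb.2⟩
  rw [card_T_B0 h.pl] at h1
  split_ifs at h1 <;> omega

theorem sum_zx (h : Crit I s X0 B0 S) {l : B} (hl : 1 ≤ n I S l) :
    ∑ x ∈ pts I l, zx I S x = zc I S := by
  have h1 := sum_through h.pl l (fun b => if n I S b = 0 then (1 : ℤ) else 0)
  rw [if_neg (by omega), mul_zero, add_zero] at h1
  have h2 : ∀ x, ∑ b ∈ T I x, (if n I S b = 0 then (1 : ℤ) else 0) = zx I S x := by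
    intro x
    rw [← Finset.sum_filter]; simp [zx]
  have h3 : ∑ b, (if n I S b = 0 then (1 : ℤ) else 0) = zc I S := by
    rw [← Finset.sum_filter]; simp [zc]
  rw [h3] at h1
  simp only [h2] at h1
  exact_mod_cast h1

/-- most missed blocks meet a given outer block outside the subplane -/
theorem card_free_zero (h : Crit I s X0 B0 S) {l : B} (hl : l ∉ B0) :
    zc I S ≤ #{x ∈ pts I l | x ∉ X0 ∧ zx I S x = 1} + (s + 1) := by
  rw [← sum_zx h (h.blk l hl), ← Finset.sum_filter_add_sum_filter_not (pts I l) (fun x => x ∈ X0)]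
  have h1 : ∑ x ∈ pts I l with x ∈ X0, zx I S x ≤ s + 1 := by
    calc ∑ x ∈ pts I l with x ∈ X0, zx I S x ≤ ∑ x ∈ pts I l with x ∈ X0, (s + 1) :=
          Finset.sum_le_sum fun x _ => zx_le h x
      _ = s + 1 := by
          rw [Finset.sum_const, card_pts_X0 h.pl, if_neg hl]; simp
  have h2 : ∑ x ∈ pts I l with x ∉ X0, zx I S x = #{x ∈ pts I l | x ∉ X0 ∧ zx I S x = 1} := by
    rw [Finset.card_filter, Finset.sum_filter]
    apply Finset.sum_congr rfl
    intro x _
    by_cases hx : x ∈ X0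
    · simp [hx]
    · have := zx_le_one h hx
      by_cases hz : zx I S x = 1
      · simp [hx, hz]
      · have : zx I S x = 0 := by omega
        simp [hx, this]
  omega

/-- a uniform bound for the rest cost gives a bound for the number of missed blocks -/
theorem cost_bound (h : Crit I s X0 B0 S) {l : B} (hl : l ∉ B0) (ρ : ℤ) (hρ : 0 ≤ ρ)
    (hr : ∀ x, I x l → x ∉ X0 → x ∉ S → zx I S x = 1 →
      ρ ≤ ∑ b ∈ T I x, cost I s S b - cost I s S l) :
    ρ * ((zc I S : ℤ) - (s + 1)) ≤ (s + 1) * ((zc I S : ℤ) + yc I s S) := by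
  have h1 := sum_cost_rest h l
  have h2 := cost_nonneg h l
  have h3 := card_free_zero h hl
  have h4 : ρ * #{x ∈ pts I l | x ∉ X0 ∧ zx I S x = 1} ≤
      ∑ x ∈ pts I l, (∑ b ∈ T I x, cost I s S b - cost I s S l) := by
    rw [mul_comm, ← nsmul_eq_mul, ← Finset.sum_const, Finset.sum_filter]
    apply Finset.sum_le_sum
    intro x hx
    rw [mem_pts] at hx
    split_ifs with h5
    · apply hr x hx h5.1 _ h5.2
      intro hxS
      have h6 : (0 : ℕ) < zx I S x := by omega
      unfold zx at h6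
      rw [Finset.card_pos] at h6
      obtain ⟨b, hb⟩ := h6
      rw [Finset.mem_filter, mem_T] at hb
      exact (n_eq_zero.1 hb.2) x hxS hb.1
    · exact rest_nonneg h hx
  have h5 : (zc I S : ℤ) - (s + 1) ≤ #{x ∈ pts I l | x ∉ X0 ∧ zx I S x = 1} := by
    have : (zc I S : ℤ) ≤ #{x ∈ pts I l | x ∉ X0 ∧ zx I S x = 1} + (s + 1) := by exact_mod_cast h3
    linarith
  have h6 := mul_le_mul_of_nonneg_left h5 hρ
  linarith

end Pool.Agent.Helper28.Baer
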