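import Pool.Agent.Helper28.Baer.Crit

/-!
# Critical sets (MP_06d6b9_co): intersection numbers
-/

set_option autoImplicit false
set_option linter.unusedSectionVars false

open Finset
open scoped Classical

namespace Pool.Agent.Helper28.Baer

variable {X B : Type*} [Fintype X] [Fintype B]
variable {I : X → B → Prop} {s : ℕ} {X0 : Finset X} {B0 : Finset B} {S : Finset X}

/-- the excess over the outer blocks through `x` -/
noncomputable def eN (I : X → B → Prop) (B0 : Finset B) (S : Finset X) (x : X) : ℤ :=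
  ∑ b ∈ T I x with b ∉ B0, ((n I S b : ℤ) - 1)

theorem e_nonneg (h : Crit I s X0 B0 S) {b : B} (hb : b ∉ B0) : 0 ≤ (n I S b : ℤ) - 1 := by
  have := h.blk b hb
  omega

theorem eN_add_le (h : Crit I s X0 B0 S) {x : X} {b c : B} (hb : b ∉ B0) (hc : c ∉ B0)
    (hbc : b ≠ c) (h1 : I x b) (h2 : I x c) :
    ((n I S b : ℤ) - 1) + ((n I S c : ℤ) - 1) ≤ eN I B0 S x := by
  unfold eN
  rw [← Finset.sum_pair hbc (f := fun b => (n I S b : ℤ) - 1)]
  apply Finset.sum_le_sum_of_subset_of_nonneg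
  · intro d hd
    simp only [Finset.mem_insert, Finset.mem_singleton] at hd
    rcases hd with rfl | rfl
    · simp [mem_T, h1, hb]
    · simp [mem_T, h2, hc]
  · intro d hd _
    rw [Finset.mem_filter] at hd
    exact e_nonneg h hd.2

theorem e_le_eN (h : Crit I s X0 B0 S) {x : X} {b : B} (hb : b ∉ B0) (h1 : I x b) :
    ((n I S b : ℤ) - 1) ≤ eN I B0 S x := by
  unfold eN
  exact Finset.single_le_sum (f := fun b => (n I S b : ℤ) - 1) (fun d hd => by
    rw [Finset.mem_filter] at hd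
    exact e_nonneg h hd.2) (by simp [mem_T, h1, hb])

/-- excess at an outer element of a missed block -/
theorem eN_of_zx (h : Crit I s X0 B0 S) {x : X} (hx : x ∉ S) (hx0 : x ∉ X0)
    (hz : zx I S x = 1) : eN I B0 S x = s + 1 := by
  have h1 := sum_out' h hx
  rw [if_neg hx0] at h1
  have h2 : ∑ b ∈ T I x with b ∈ B0, (n I S b : ℤ) = 0 := by
    apply Finset.sum_eq_zero
    intro b hb
    rw [Finset.mem_filter, mem_T] at hb
    unfold zx at hz
    rw [Finset.card_eq_one] at hz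
    obtain ⟨c, hc⟩ := hz
    have hc1 : c ∈ ({b ∈ T I x | n I S b = 0} : Finset B) := by rw [hc]; simp
    rw [Finset.mem_filter, mem_T] at hc1
    rw [uniq_B0 h.pl hx0 hb.2 (zero_mem_B0 h hc1.2) hb.1 hc1.1, hc1.2]
    rfl
  rw [h2, add_zero] at h1
  exact h1

/-- excess at an outer element of an inner block -/
theorem eN_of_B (h : Crit I s X0 B0 S) {x : X} (hx : x ∉ S) (hx0 : x ∉ X0) {b : B} (hb : b ∈ B0)
    (hI : I x b) : eN I B0 S x = s + 1 - n I S b := by
  have h1 := sum_out' h hx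
  rw [if_neg hx0] at h1
  have h2 : ({b ∈ T I x | b ∈ B0} : Finset B) = {b} := by
    ext c
    rw [Finset.mem_filter, mem_T, Finset.mem_singleton]
    constructor
    · rintro ⟨h3, h4⟩
      exact uniq_B0 h.pl hx0 h4 hb h3 hI
    · rintro rfl
      exact ⟨hI, hb⟩
  rw [h2, Finset.sum_singleton] at h1
  unfold eN
  linarith

theorem rest_cost (h : Crit I s X0 B0 S) {x : X} {l : B} (hl : l ∉ B0) (hI : I x l) (c : ℤ)
    (hc : ∀ b, I x b → b ∉ B0 → b ≠ l → c * ((n I S b : ℤ) - 1) ≤ cost I s S b) :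
    c * (eN I B0 S x - ((n I S l : ℤ) - 1)) ≤ ∑ b ∈ T I x, cost I s S b - cost I s S l := by
  have hmem : l ∈ ({b ∈ T I x | b ∉ B0} : Finset B) := by simp [mem_T, hI, hl]
  have h1 : ∑ b ∈ T I x with b ∉ B0, cost I s S b ≤ ∑ b ∈ T I x, cost I s S b :=
    Finset.sum_le_sum_of_subset_of_nonneg (Finset.filter_subset _ _)
      fun b _ _ => cost_nonneg h b
  have h2 := Finset.add_sum_erase _ (fun b => cost I s S b) hmem
  have h3 := Finset.add_sum_erase _ (fun b => (n I S b : ℤ) - 1) hmem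
  have h4 : c * ∑ b ∈ ({b ∈ T I x | b ∉ B0} : Finset B).erase l, ((n I S b : ℤ) - 1) ≤
      ∑ b ∈ ({b ∈ T I x | b ∉ B0} : Finset B).erase l, cost I s S b := by
    rw [Finset.mul_sum]
    apply Finset.sum_le_sum
    intro b hb
    rw [Finset.mem_erase, Finset.mem_filter, mem_T] at hb
    exact hc b hb.2.1 hb.2.2 hb.1
  have h5 : eN I B0 S x - ((n I S l : ℤ) - 1) =
      ∑ b ∈ ({b ∈ T I x | b ∉ B0} : Finset B).erase l, ((n I S b : ℤ) - 1) := by
    unfold eN
    linarith
  rw [h5]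
  linarith

theorem all_cost {x : X} (c : ℤ)
    (hc : ∀ b, I x b → b ∉ B0 → c * ((n I S b : ℤ) - 1) ≤ cost I s S b) :
    c * eN I B0 S x ≤ ∑ b ∈ T I x with b ∉ B0, cost I s S b := by
  unfold eN
  rw [Finset.mul_sum]
  apply Finset.sum_le_sum
  intro b hb
  rw [Finset.mem_filter, mem_T] at hb
  exact hc b hb.1 hb.2

/-- number of elements outside `S` and outside the subplane on an outer block -/
theorem card_free_N (h : Crit I s X0 B0 S) {l : B} (hl : l ∉ B0) :
    s ^ 2 ≤ #{x ∈ pts I l | x ∉ S ∧ x ∉ X0} + n I S l := by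
  have h1 : pts I l ⊆ ({x ∈ pts I l | x ∉ S ∧ x ∉ X0} : Finset X) ∪
      (({x ∈ S | I x l} : Finset X) ∪ ({x ∈ pts I l | x ∈ X0} : Finset X)) := by
    intro x hx
    simp only [Finset.mem_union, Finset.mem_filter]
    rw [mem_pts] at hx
    rw [mem_pts]
    tauto
  have h2 := (Finset.card_le_card h1).trans (Finset.card_union_le _ _)
  have h3 := Finset.card_union_le ({x ∈ S | I x l} : Finset X) ({x ∈ pts I l | x ∈ X0} : Finset X)
  rw [card_pts_X0 h.pl, if_neg hl] at h3
  rw [card_pts h.pl] at h2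
  change _ ≤ n I S l + 1 at h3
  omega

theorem card_free_B (h : Crit I s X0 B0 S) {l : B} (hl : l ∈ B0) :
    s ^ 2 ≤ #{x ∈ pts I l | x ∉ S ∧ x ∉ X0} + n I S l + s := by
  have h1 : pts I l ⊆ ({x ∈ pts I l | x ∉ S ∧ x ∉ X0} : Finset X) ∪
      (({x ∈ S | I x l} : Finset X) ∪ ({x ∈ pts I l | x ∈ X0} : Finset X)) := by
    intro x hx
    simp only [Finset.mem_union, Finset.mem_filter]
    rw [mem_pts] at hx
    rw [mem_pts]
    tauto
  have h2 := (Finset.card_le_card h1).trans (Finset.card_union_le _ _)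
  have h3 := Finset.card_union_le ({x ∈ S | I x l} : Finset X) ({x ∈ pts I l | x ∈ X0} : Finset X)
  rw [card_pts_X0 h.pl, if_pos hl] at h3
  rw [card_pts h.pl] at h2
  change _ ≤ n I S l + _ at h3
  omega

/-- an `(s+2)`-block: every outer element off `S` is on a missed block -/
theorem zx_of_big (h : Crit I s X0 B0 S) {m : B} (hm : n I S m = s + 2) {x : X} (hI : I x m)
    (hx : x ∉ S) (hx0 : x ∉ X0) : zx I S x = 1 := by
  have hmN : m ∉ B0 := fun hmB => by have := ub_B h hmB; omega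
  have h1 := sum_out' h hx
  rw [if_neg hx0] at h1
  have h2 := e_le_eN h hmN hI
  unfold eN at h2
  rw [hm] at h2
  push_cast at h2
  have h4 := card_T_B0 h.pl x
  rw [if_neg hx0, Finset.card_eq_one] at h4
  obtain ⟨c, hc⟩ := h4
  rw [hc, Finset.sum_singleton] at h1
  have h5 : (n I S c : ℤ) ≤ 0 := by linarith
  have h6 : n I S c = 0 := by omega
  have hcm : c ∈ ({b ∈ T I x | b ∈ B0} : Finset B) := by rw [hc]; simp
  rw [Finset.mem_filter] at hcm
  have h7 : 0 < zx I S x := by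
    unfold zx
    rw [Finset.card_pos]
    exact ⟨c, by rw [Finset.mem_filter]; exact ⟨hcm.1, h6⟩⟩
  have := zx_le_one h hx0
  omega

theorem zc_lb_big (h : Crit I s X0 B0 S) {m : B} (hm : n I S m = s + 2) :
    s ^ 2 ≤ zc I S + s + 2 := by
  have hmN : m ∉ B0 := fun hmB => by have := ub_B h hmB; omega
  have h1 := card_free_N h hmN
  have h2 := sum_zx h (h.blk m hmN)
  have h3 : #{x ∈ pts I m | x ∉ S ∧ x ∉ X0} ≤ ∑ x ∈ pts I m, zx I S x := by
    rw [Finset.card_filter]
    apply Finset.sum_le_sum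
    intro x hx
    rw [mem_pts] at hx
    split_ifs with h4
    · rw [zx_of_big h hm hx h4.1 h4.2]
    · exact Nat.zero_le _
  omega

/-- many missed blocks -/
theorem zc_lb (h : Crit I s X0 B0 S) : (s : ℤ) ^ 2 - 3 * s + 4 ≤ zc I S := by
  have hs := h.hs
  have hsZ : (20 : ℤ) ≤ s := by exact_mod_cast hs
  by_cases hy : ∃ m : B, n I S m = s + 2
  · obtain ⟨m, hm⟩ := hy
    have h1 := zc_lb_big h hm
    have h2 : (s : ℤ) ^ 2 ≤ zc I S + s + 2 := by exact_mod_cast h1
    nlinarith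
  push Not at hy
  have hy0 : yc I s S = 0 := by
    unfold yc
    rw [Finset.card_eq_zero, Finset.filter_eq_empty_iff]
    intro b _
    exact hy b
  obtain ⟨g, hg, hg0⟩ := h.miss
  have h1 := sum_cost_rest h g
  have hcg : cost I s S g = 0 := by
    unfold cost
    rw [hg0]; simp
  have h2 : ((s : ℤ) - 1) * #{x ∈ pts I g | x ∉ S ∧ x ∉ X0} ≤
      ∑ x ∈ pts I g, (∑ b ∈ T I x, cost I s S b - cost I s S g) := by
    rw [mul_comm, ← nsmul_eq_mul, ← Finset.sum_const, Finset.sum_filter]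
    apply Finset.sum_le_sum
    intro x hx
    rw [mem_pts] at hx
    split_ifs with h5
    · rw [hcg, sub_zero]
      have h6 : eN I B0 S x = s + 1 := by
        rw [eN_of_B h h5.1 h5.2 hg hx, hg0]; simp
      -- some outer block has excess strictly between 0 and s
      have h7 : ∃ b, I x b ∧ b ∉ B0 ∧ n I S b ≠ 1 ∧ n I S b ≠ s + 1 := by
        by_contra hcon
        push Not at hcon
        have h8 : (s : ℤ) ∣ eN I B0 S x := by
          unfold eN
          apply Finset.dvd_sum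
          intro b hb
          rw [Finset.mem_filter, mem_T] at hb
          by_cases h9 : n I S b = 1
          · rw [h9]; simp
          · rw [hcon b hb.1 hb.2 h9]; simp
        rw [h6] at h8
        have h10 : (s : ℤ) ∣ 1 := by
          have := Int.dvd_sub h8 (dvd_refl (s : ℤ))
          simpa using this
        have := Int.le_of_dvd one_pos h10
        linarith
      obtain ⟨b, hb1, hb2, hb3, hb4⟩ := h7
      have h11 := h.blk b hb2
      have h12 := ub_N h hb2
      have h13 : n I S b ≤ s := by have := hy b; omega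
      have h14 : 2 ≤ n I S b := by omega
      have h15 : cost I s S b ≤ ∑ b ∈ T I x, cost I s S b :=
        Finset.single_le_sum (f := fun b => cost I s S b) (fun b _ => cost_nonneg h b)
          (mem_T.2 hb1)
      rw [cost_eq h11 (by omega)] at h15
      have h16 : (2 : ℤ) ≤ n I S b := by exact_mod_cast h14
      have h17 : (n I S b : ℤ) ≤ s := by exact_mod_cast h13
      nlinarith
    · exact rest_nonneg h hx
  rw [h1, hcg, hy0] at h2
  have h3 := card_free_B h hg
  rw [hg0] at h3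
  have h4 : (s : ℤ) ^ 2 - s ≤ #{x ∈ pts I g | x ∉ S ∧ x ∉ X0} := by
    have : (s : ℤ) ^ 2 ≤ #{x ∈ pts I g | x ∉ S ∧ x ∉ X0} + (0 : ℕ) + s := by exact_mod_cast h3
    push_cast at this
    linarith
  have h5 : ((s : ℤ) - 1) * ((s : ℤ) ^ 2 - s) ≤ (s + 1) * zc I S := by
    have := mul_le_mul_of_nonneg_left h4 (by linarith : (0 : ℤ) ≤ (s : ℤ) - 1)
    push_cast at h2
    linarith
  by_contra hcon
  push Not at hcon
  have h6 : (zc I S : ℤ) ≤ (s : ℤ) ^ 2 - 3 * s + 3 := by linarith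
  nlinarith

/-- the number of `(s+2)`-blocks through `x` -/
noncomputable def yx (I : X → B → Prop) (s : ℕ) (S : Finset X) (x : X) : ℕ :=
  #{b ∈ T I x | n I S b = s + 2}

theorem big_not_mem (h : Crit I s X0 B0 S) {m : B} (hm : n I S m = s + 2) : m ∉ B0 :=
  fun hmB => by have := ub_B h hmB; omega

theorem yx_le_one (h : Crit I s X0 B0 S) {x : X} (hx : x ∉ S) : yx I s S x ≤ 1 := by
  unfold yx
  rw [Finset.card_le_one]
  intro b hb c hc
  rw [Finset.mem_filter, mem_T] at hb hc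
  by_contra hbc
  have h1 := eN_add_le h (big_not_mem h hb.2) (big_not_mem h hc.2) hbc hb.1 hc.1
  have h2 := sum_out' h hx
  have h3 : (0 : ℤ) ≤ ∑ b ∈ T I x with b ∈ B0, (n I S b : ℤ) :=
    Finset.sum_nonneg fun _ _ => by positivity
  unfold eN at h1
  rw [hb.2, hc.2] at h1
  push_cast at h1
  split_ifs at h2 <;> linarith [(by positivity : (0 : ℤ) ≤ s)]

theorem sum_yx_block (h : Crit I s X0 B0 S) {m : B} (hm : n I S m = s + 2) :
    ∑ x ∈ S with I x m, (yx I s S x : ℤ) = yc I s S + s + 1 := by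
  have h1 := sum_through h.pl m (fun b => if n I S b = s + 2 then (1 : ℤ) else 0)
  rw [if_pos hm] at h1
  have h2 : ∀ x, ∑ b ∈ T I x, (if n I S b = s + 2 then (1 : ℤ) else 0) = yx I s S x := by
    intro x
    rw [← Finset.sum_filter]; simp [yx]
  have h3 : ∑ b, (if n I S b = s + 2 then (1 : ℤ) else 0) = yc I s S := by
    rw [← Finset.sum_filter]; simp [yc]
  rw [h3] at h1
  simp only [h2] at h1
  rw [← Finset.sum_filter_add_sum_filter_not (pts I m) (fun x => x ∈ S)] at h1
  have h4 : ({x ∈ pts I m | x ∈ S} : Finset X) = ({x ∈ S | I x m} : Finset X) := by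
    ext x; simp [mem_pts, and_comm]
  have h5 : ∑ x ∈ pts I m with x ∉ S, (yx I s S x : ℤ) = (s : ℤ) ^ 2 - s - 1 := by
    have h6 : ∀ x ∈ ({x ∈ pts I m | x ∉ S} : Finset X), (yx I s S x : ℤ) = 1 := by
      intro x hx
      rw [Finset.mem_filter, mem_pts] at hx
      have h7 := yx_le_one h hx.2
      have h8 : 0 < yx I s S x := by
        unfold yx
        rw [Finset.card_pos]
        exact ⟨m, by rw [Finset.mem_filter, mem_T]; exact ⟨hx.1, hm⟩⟩
      have : yx I s S x = 1 := by omega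
      rw [this]; rfl
    rw [Finset.sum_congr rfl h6, Finset.sum_const, nsmul_eq_mul, mul_one]
    have h9 := Finset.card_filter_add_card_filter_not (s := pts I m) (p := fun x => x ∈ S)
    rw [h4, card_pts h.pl] at h9
    change n I S m + _ = _ at h9
    rw [hm] at h9
    have : ((s : ℤ) + 2) + #{x ∈ pts I m | x ∉ S} = (s : ℤ) ^ 2 + 1 := by exact_mod_cast h9
    linarith
  rw [h4, h5] at h1
  linarith

theorem three_yc_le (h : Crit I s X0 B0 S) : 3 * (yc I s S : ℤ) ≤ (s : ℤ) ^ 2 + s + 1 := by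
  set y : ℤ := (yc I s S : ℤ) with hy
  have hy0 : 0 ≤ y := by positivity
  have h1 : ∑ x ∈ S, (yx I s S x : ℤ) = (s + 2) * y := by
    have h2 := sum_T (I := I) S (fun b => if n I S b = s + 2 then (1 : ℤ) else 0)
    have h3 : ∀ x, ∑ b ∈ T I x, (if n I S b = s + 2 then (1 : ℤ) else 0) = yx I s S x := by
      intro x
      rw [← Finset.sum_filter]; simp [yx]
    simp only [h3] at h2
    rw [h2]
    have h4 : ∀ b, (n I S b : ℤ) * (if n I S b = s + 2 then (1 : ℤ) else 0) =
        (s + 2) * (if n I S b = s + 2 then (1 : ℤ) else 0) := by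
      intro b
      split_ifs with h5
      · rw [h5]; push_cast; ring
      · ring
    rw [Finset.sum_congr rfl (fun b _ => h4 b), ← Finset.mul_sum, ← Finset.sum_filter, hy]
    simp [yc]
  have h2 : ∑ x ∈ S, (yx I s S x : ℤ) ^ 2 = y * (y + s + 1) := by
    have h3 : ∑ b with n I S b = s + 2, ∑ x ∈ S with I x b, (yx I s S x : ℤ) = y * (y + s + 1) := by
      have h4 : ∀ b ∈ ({b | n I S b = s + 2} : Finset B),
          ∑ x ∈ S with I x b, (yx I s S x : ℤ) = y + s + 1 := by
        intro b hb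
        simp only [Finset.mem_filter_univ] at hb
        exact sum_yx_block h hb
      rw [Finset.sum_congr rfl h4, Finset.sum_const, nsmul_eq_mul, hy]
      rfl
    rw [← h3]
    simp_rw [Finset.sum_filter]
    rw [← Finset.sum_filter, Finset.sum_comm]
    apply Finset.sum_congr rfl
    intro x _
    rw [← Finset.sum_filter, Finset.sum_const, nsmul_eq_mul, sq]
    congr 2
    unfold yx
    congr 1
    ext b
    simp [mem_T, and_comm]
  have h3 := sq_sum_le_card_mul_sum_sq (s := S) (f := fun x => (yx I s S x : ℤ))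
  rw [h1, h2, h.card] at h3
  push_cast at h3
  rcases hy0.eq_or_lt with h4 | h4
  · rw [← h4]; positivity
  · have h5 : y * ((s + 2) ^ 2 * y) ≤ y * (((s : ℤ) ^ 2 + s + 1) * (y + s + 1)) := by
      calc y * ((s + 2) ^ 2 * y) = ((s + 2) * y) ^ 2 := by ring
        _ ≤ _ := h3
        _ = _ := by ring
    have h6 := le_of_mul_le_mul_left h5 h4
    have h7 : ((s : ℤ) + 1) * (3 * y) ≤ (s + 1) * ((s : ℤ) ^ 2 + s + 1) := by nlinarith
    exact le_of_mul_le_mul_left h7 (by positivity)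

theorem zc_le (h : Crit I s X0 B0 S) : (zc I S : ℤ) ≤ (s : ℤ) ^ 2 + s + 1 := by
  have h1 : zc I S ≤ #B0 := by
    apply Finset.card_le_card
    intro b hb
    simp only [Finset.mem_filter_univ] at hb
    exact zero_mem_B0 h hb
  rw [h.pl.cardB0] at h1
  exact_mod_cast h1

theorem size_N4 (h : Crit I s X0 B0 S) {l : B} (hl : l ∉ B0) (h4 : 4 ≤ n I S l) :
    s < n I S l := by
  by_contra hcon
  push Not at hcon
  have hs : (20 : ℤ) ≤ s := by exact_mod_cast h.hs
  have h4' : (4 : ℤ) ≤ n I S l := by exact_mod_cast h4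
  have h5' : (n I S l : ℤ) ≤ s := by exact_mod_cast hcon
  set m : ℤ := (n I S l : ℤ) with hm
  have hb := cost_bound h hl ((m - 2) * (s + 2 - m))
    (mul_nonneg (by linarith) (by linarith)) (by
      intro x hx hx0 hxS hz
      have h1 := rest_cost h hl hx (m - 2) (by
        intro b hb1 hb2 hb3
        have h2 := eN_add_le h hb2 hl hb3 hb1 hx
        rw [eN_of_zx h hxS hx0 hz, ← hm] at h2
        have h3 := h.blk b hb2
        have h6 : (1 : ℤ) ≤ n I S b := by exact_mod_cast h3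
        have h7 : (n I S b : ℤ) ≤ s - 1 := by linarith
        rw [cost_eq h3 (by omega)]
        nlinarith)
      rw [eN_of_zx h hxS hx0 hz, ← hm] at h1
      calc (m - 2) * (s + 2 - m) = (m - 2) * (s + 1 - (m - 1)) := by ring
        _ ≤ _ := h1)
  have h1 : 2 * (s : ℤ) - 4 ≤ (m - 2) * (s + 2 - m) := by
    nlinarith [mul_nonneg (by linarith : (0 : ℤ) ≤ m - 4) (by linarith : (0 : ℤ) ≤ s - m)]
  have h2 := zc_lb h
  have h3 := three_yc_le h
  set z : ℤ := (zc I S : ℤ) with hz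
  set y : ℤ := (yc I s S : ℤ) with hy
  have h6 : 0 ≤ z - (s + 1) := by nlinarith
  have h7 : (2 * (s : ℤ) - 4) * (z - (s + 1)) ≤ (s + 1) * (z + y) :=
    (mul_le_mul_of_nonneg_right h1 h6).trans hb
  -- (3 s - 15) z ≤ (s + 1) (s ^ 2 + 7 s - 11)
  have h8 : (3 * (s : ℤ) - 15) * z ≤ (s + 1) * ((s : ℤ) ^ 2 + 7 * s - 11) := by nlinarith
  have h9 : (3 * (s : ℤ) - 15) * ((s : ℤ) ^ 2 - 3 * s + 4) ≤ (3 * (s : ℤ) - 15) * z :=
    mul_le_mul_of_nonneg_left h2 (by linarith)
  nlinarith [mul_nonneg (by linarith : (0:ℤ) ≤ (s:ℤ) - 20) (by positivity : (0:ℤ) ≤ (s:ℤ)^2)]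

theorem size_N3 (h : Crit I s X0 B0 S) {l : B} (hl : l ∉ B0) : n I S l ≠ 3 := by
  intro h3
  have hs : (20 : ℤ) ≤ s := by exact_mod_cast h.hs
  have hb := cost_bound h hl (((s : ℤ) - 2) * (s - 1))
    (mul_nonneg (by linarith) (by linarith)) (by
      intro x hx hx0 hxS hz
      have h1 := rest_cost h hl hx ((s : ℤ) - 2) (by
        intro b hb1 hb2 hb3
        have h2 := eN_add_le h hb2 hl hb3 hb1 hx
        rw [eN_of_zx h hxS hx0 hz, h3] at h2
        push_cast at h2
        have h4 := h.blk b hb2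
        have h6 : (1 : ℤ) ≤ n I S b := by exact_mod_cast h4
        have h7 : n I S b ≤ s := by omega
        have h8 : n I S b ≤ 3 := by
          by_contra hc
          have := size_N4 h hb2 (by omega)
          omega
        have h9 : (n I S b : ℤ) ≤ 3 := by exact_mod_cast h8
        rw [cost_eq h4 (by omega)]
        nlinarith)
      rw [eN_of_zx h hxS hx0 hz, h3] at h1
      calc ((s : ℤ) - 2) * (s - 1) = ((s : ℤ) - 2) * (s + 1 - (((3 : ℕ) : ℤ) - 1)) := by
            push_cast; ring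
        _ ≤ _ := h1)
  have h2 := zc_lb h
  have h5 := three_yc_le h
  set z : ℤ := (zc I S : ℤ) with hz
  set y : ℤ := (yc I s S : ℤ) with hy
  have h8 : ((s : ℤ) ^ 2 - 4 * s + 1) * z ≤ (s + 1) * y + (s - 1) * (s - 2) * (s + 1) := by
    nlinarith
  have h9 : ((s : ℤ) ^ 2 - 4 * s + 1) * ((s : ℤ) ^ 2 - 3 * s + 4) ≤
      ((s : ℤ) ^ 2 - 4 * s + 1) * z := mul_le_mul_of_nonneg_left h2 (by nlinarith)
  have h10 : 3 * ((s : ℤ) ^ 2 - 4 * s + 1) * ((s : ℤ) ^ 2 - 3 * s + 4) ≤
      (s + 1) * ((s : ℤ) ^ 2 + s + 1) + 3 * ((s - 1) * (s - 2) * (s + 1)) := by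
    nlinarith
  have h11 : 0 ≤ ((s : ℤ) - 20) * (s : ℤ) ^ 3 := mul_nonneg (by linarith) (by positivity)
  nlinarith [mul_nonneg (by linarith : (0:ℤ) ≤ (s:ℤ) - 20) (by positivity : (0:ℤ) ≤ (s:ℤ)^2)]

/-- intersection numbers of the outer blocks -/
theorem size_N (h : Crit I s X0 B0 S) {l : B} (hl : l ∉ B0) :
    n I S l = 1 ∨ n I S l = 2 ∨ n I S l = s + 1 ∨ n I S l = s + 2 := by
  have h1 := h.blk l hl
  have h2 := ub_N h hl
  have h3 := size_N3 h hl
  have h4 := size_N4 h hl
  omega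

/-- intersection numbers of the inner blocks -/
theorem size_B (h : Crit I s X0 B0 S) {l : B} (hl : l ∈ B0) :
    n I S l = 0 ∨ n I S l = 1 ∨ n I S l = s ∨ n I S l = s + 1 := by
  by_contra hcon
  have h1 := ub_B h hl
  have h2 : 2 ≤ n I S l := by omega
  have h3 : n I S l + 1 ≤ s := by omega
  have hs : (20 : ℤ) ≤ s := by exact_mod_cast h.hs
  have h2' : (2 : ℤ) ≤ n I S l := by exact_mod_cast h2
  have h3' : (n I S l : ℤ) + 1 ≤ s := by exact_mod_cast h3
  have h4 : (2 * ((s : ℤ) - 1)) * #{x ∈ pts I l | x ∉ S ∧ x ∉ X0} ≤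
      ∑ x ∈ pts I l, (∑ b ∈ T I x, cost I s S b - cost I s S l) := by
    rw [mul_comm, ← nsmul_eq_mul, ← Finset.sum_const, Finset.sum_filter]
    apply Finset.sum_le_sum
    intro x hx
    rw [mem_pts] at hx
    split_ifs with h5
    · have h6 := eN_of_B h h5.1 h5.2 hl hx
      have h7 := all_cost (I := I) (s := s) (B0 := B0) (S := S) (x := x) ((s : ℤ) - 1) (by
        intro b hb1 hb2
        have h8 := e_le_eN h hb2 hb1
        rw [h6] at h8
        have h9 := size_N h hb2
        rcases h9 with h9 | h9 | h9 | h9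
        · rw [h9, cost_eq (by omega) (by omega), h9]; simp
        · rw [h9, cost_eq (by omega) (by omega), h9]; push_cast; linarith
        · rw [h9] at h8; push_cast at h8; linarith
        · rw [h9] at h8; push_cast at h8; linarith)
      rw [h6] at h7
      have h8 : ∑ b ∈ T I x with b ∈ B0, cost I s S b + ∑ b ∈ T I x with b ∉ B0, cost I s S b =
          ∑ b ∈ T I x, cost I s S b := Finset.sum_filter_add_sum_filter_not _ _ _
      have h9 : cost I s S l ≤ ∑ b ∈ T I x with b ∈ B0, cost I s S b :=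
        Finset.single_le_sum (f := fun b => cost I s S b) (fun b _ => cost_nonneg h b)
          (by rw [Finset.mem_filter, mem_T]; exact ⟨hx, hl⟩)
      nlinarith
    · exact rest_nonneg h hx
  rw [sum_cost_rest h] at h4
  have h5 := cost_nonneg h l
  have h6 := card_free_B h hl
  have h7 : (s : ℤ) ^ 2 - 2 * s + 1 ≤ #{x ∈ pts I l | x ∉ S ∧ x ∉ X0} := by
    have : (s : ℤ) ^ 2 ≤ #{x ∈ pts I l | x ∉ S ∧ x ∉ X0} + n I S l + s := by exact_mod_cast h6
    linarith
  have h8 := zc_le h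
  have h9 := three_yc_le h
  have h10 := mul_le_mul_of_nonneg_left h7 (by linarith : (0 : ℤ) ≤ 2 * ((s : ℤ) - 1))
  have h11 : (2 * ((s : ℤ) - 1)) * ((s : ℤ) ^ 2 - 2 * s + 1) ≤
      (s + 1) * ((zc I S : ℤ) + yc I s S) := by linarith
  have h12 : 3 * ((2 * ((s : ℤ) - 1)) * ((s : ℤ) ^ 2 - 2 * s + 1)) ≤
      (s + 1) * (4 * ((s : ℤ) ^ 2 + s + 1)) := by nlinarith
  nlinarith [mul_nonneg (by linarith : (0:ℤ) ≤ (s:ℤ) - 20) (by positivity : (0:ℤ) ≤ (s:ℤ)^2)]

end Pool.Agent.Helper28.Baer
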