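import Pool.Agent.Helper28.Baer.CaseY2
import Pool.Agent.Helper28.Baer.CaseZ2

/-!
# The subcritical case and the abstract main theorem (MP_06d6b9_co)
-/

set_option autoImplicit false
set_option linter.unusedSectionVars false

open Finset
open scoped Classical

namespace Pool.Agent.Helper28.Baer

variable {X B : Type*} [Fintype X] [Fintype B]
variable {I : X → B → Prop} {s : ℕ} {X0 : Finset X} {B0 : Finset B} {S : Finset X}

theorem n_insert {x : X} (hx : x ∉ S) (b : B) :
    n I (insert x S) b = n I S b + if I x b then 1 else 0 := by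
  unfold n
  rw [Finset.filter_insert]
  split_ifs with h
  · rw [Finset.card_insert_of_notMem]
    intro h2
    exact hx (Finset.mem_filter.1 h2).1
  · rfl

theorem n_mono {S' : Finset X} (h : S ⊆ S') (b : B) : n I S b ≤ n I S' b :=
  Finset.card_le_card (Finset.filter_subset_filter _ h)

/-- `s ^ 2 + s` elements avoiding `g` and blocking the outer blocks -/
structure SubC (I : X → B → Prop) (s : ℕ) (X0 : Finset X) (B0 : Finset B) (S : Finset X) (g : B) :
    Prop where
  pl : Pl I s X0 B0
  cardX : Fintype.card X = s ^ 4 + s ^ 2 + 1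
  hs : 20 ≤ s
  card : #S = s ^ 2 + s
  blk : ∀ b ∉ B0, 1 ≤ n I S b
  hg : g ∈ B0
  miss : n I S g = 0

variable {g : B}

theorem SubC.crit (h : SubC I s X0 B0 S g) {x : X} (hx : x ∉ S) (hxg : ¬ I x g) :
    Crit I s X0 B0 (insert x S) where
  pl := h.pl
  hs := h.hs
  card := by rw [Finset.card_insert_of_notMem hx, h.card]
  blk b hb := (h.blk b hb).trans (n_mono (Finset.subset_insert _ _) b)
  miss := ⟨g, h.hg, by rw [n_insert hx, h.miss, if_neg hxg]⟩

/-- a free element off two blocks -/
theorem exists_off (pl : Pl I s X0 B0) (hX : Fintype.card X = s ^ 4 + s ^ 2 + 1) (hs : 20 ≤ s)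
    (S : Finset X) (hS : #S ≤ s ^ 2 + s) (b g : B) : ∃ x, x ∉ S ∧ ¬ I x g ∧ ¬ I x b := by
  by_contra hcon
  push Not at hcon
  have h1 : (Finset.univ : Finset X) ⊆ S ∪ (pts I g ∪ pts I b) := by
    intro x _
    rw [Finset.mem_union, Finset.mem_union, mem_pts, mem_pts]
    by_cases h1 : x ∈ S
    · exact Or.inl h1
    · by_cases h2 : I x g
      · exact Or.inr (Or.inl h2)
      · exact Or.inr (Or.inr (hcon x h1 h2))
  have h2 := (Finset.card_le_card h1).trans ((Finset.card_union_le _ _).trans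
    (Nat.add_le_add_left (Finset.card_union_le _ _) _))
  rw [Finset.card_univ, hX, card_pts pl, card_pts pl] at h2
  have h4 : 400 ≤ s ^ 2 := by nlinarith
  have h3 : 400 * s ^ 2 ≤ s ^ 4 := by
    calc 400 * s ^ 2 ≤ s ^ 2 * s ^ 2 := Nat.mul_le_mul_right _ h4
      _ = s ^ 4 := by ring
  nlinarith

/-- a free element on a block, off another block -/
theorem exists_on (pl : Pl I s X0 B0) (S : Finset X) {b g : B} (hbg : b ≠ g)
    (hn : n I S b < s ^ 2) : ∃ x, x ∉ S ∧ ¬ I x g ∧ I x b := by
  by_contra hcon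
  push Not at hcon
  have h1 : pts I b ⊆ ({x ∈ S | I x b} : Finset X) ∪ ({x | I x b ∧ I x g} : Finset X) := by
    intro x hx
    rw [mem_pts] at hx
    simp only [Finset.mem_union, Finset.mem_filter, Finset.mem_univ, true_and]
    by_cases h1 : x ∈ S
    · exact Or.inl ⟨h1, hx⟩
    · right
      refine ⟨hx, ?_⟩
      by_contra h2
      exact hcon x h1 h2 hx
  have h2 := (Finset.card_le_card h1).trans (Finset.card_union_le _ _)
  rw [card_pts pl, pl.meet b g hbg] at h2
  unfold n at hn
  omega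

theorem SubC.size_N (h : SubC I s X0 B0 S g) {b : B} (hb : b ∉ B0) :
    n I S b = 1 ∨ n I S b = s + 1 := by
  have hs := h.hs
  obtain ⟨x, hx1, hx2, hx3⟩ := exists_off h.pl h.cardX hs S h.card.le b g
  have h1 := Baer.size_N (h.crit hx1 hx2) hb
  rw [n_insert hx1, if_neg hx3, add_zero] at h1
  have hbg : b ≠ g := fun e => hb (e ▸ h.hg)
  have h3 : s + 2 < s ^ 2 := by nlinarith
  obtain ⟨y, hy1, hy2, hy3⟩ := exists_on h.pl S hbg (by omega)
  have h2 := Baer.size_N (h.crit hy1 hy2) hb
  rw [n_insert hy1, if_pos hy3] at h2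
  omega

theorem SubC.size_B (h : SubC I s X0 B0 S g) {b : B} (hb : b ∈ B0) :
    n I S b = 0 ∨ n I S b = s := by
  have hs := h.hs
  by_cases hbg : b = g
  · left; rw [hbg]; exact h.miss
  obtain ⟨x, hx1, hx2, hx3⟩ := exists_off h.pl h.cardX hs S h.card.le b g
  have h1 := Baer.size_B (h.crit hx1 hx2) hb
  rw [n_insert hx1, if_neg hx3, add_zero] at h1
  have h3 : s + 2 < s ^ 2 := by nlinarith
  obtain ⟨y, hy1, hy2, hy3⟩ := exists_on h.pl S hbg (by omega)
  have h2 := Baer.size_B (h.crit hy1 hy2) hb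
  rw [n_insert hy1, if_pos hy3] at h2
  omega

theorem SubC.false (h : SubC I s X0 B0 S g) : False := by
  have hs := h.hs
  have hsZ : (20 : ℤ) ≤ s := by exact_mod_cast hs
  set u : ℤ := (#{b | n I S b = s + 1} : ℤ) with hu
  set t : ℤ := (#{b | n I S b = s} : ℤ) with ht
  set z : ℤ := (zc I S : ℤ) with hz
  have hcase : ∀ b, n I S b = 1 ∨ n I S b = s + 1 ∨ n I S b = 0 ∨ n I S b = s := by
    intro b
    by_cases hb : b ∈ B0
    · rcases h.size_B hb with h1 | h1 <;> omega
    · rcases h.size_N hb with h1 | h1 <;> omega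
  -- the number of inner blocks
  have e0 : z + t = (s : ℤ) ^ 2 + s + 1 := by
    have h1 : B0 = ({b | n I S b = 0} : Finset B) ∪ ({b | n I S b = s} : Finset B) := by
      ext b
      rw [Finset.mem_union, Finset.mem_filter_univ, Finset.mem_filter_univ]
      constructor
      · exact fun hb => h.size_B hb
      · intro hb
        by_contra hbN
        have := h.size_N hbN
        omega
    have h2 := congrArg Finset.card h1
    rw [h.pl.cardB0, Finset.card_union_of_disjoint] at h2
    · rw [hz, ht]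
      unfold zc
      exact_mod_cast h2.symm
    · rw [Finset.disjoint_filter]
      intro b _ h3 h4
      omega
  -- counting with a linear combination which vanishes on outer blocks
  have e1 : ∑ b, (((n I S b : ℤ) - 1) * (s + 1 - n I S b)) = -(s + 1) * z + (s - 1) * t := by
    have h1 : ∀ b, ((n I S b : ℤ) - 1) * (s + 1 - n I S b) =
        (if n I S b = 0 then (-(s + 1) : ℤ) else 0) + (if n I S b = s then ((s : ℤ) - 1) else 0) := by
      intro b
      rcases hcase b with h1 | h1 | h1 | h1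
      · rw [if_neg (by omega), if_neg (by omega), h1]; push_cast; ring
      · rw [if_neg (by omega), if_neg (by omega), h1]; push_cast; ring
      · rw [if_pos h1, if_neg (by omega), h1]; push_cast; ring
      · rw [if_neg (by omega), if_pos h1, h1]; push_cast; ring
    rw [Finset.sum_congr rfl (fun b _ => h1 b), Finset.sum_add_distrib, ← Finset.sum_filter,
      ← Finset.sum_filter, Finset.sum_const, Finset.sum_const, nsmul_eq_mul, nsmul_eq_mul, hz, ht]
    unfold zc
    ring
  have e2 : ∑ b, (((n I S b : ℤ) - 1) * (s + 1 - n I S b)) = -(s + 1) * (s - 1) ^ 2 := by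
    have h2 : ∀ b, ((n I S b : ℤ) - 1) * (s + 1 - n I S b) =
        (s + 2) * (n I S b : ℤ) - (n I S b : ℤ) * n I S b - (s + 1) := by intro b; ring
    rw [Finset.sum_congr rfl (fun b _ => h2 b), Finset.sum_sub_distrib, Finset.sum_sub_distrib,
      ← Finset.mul_sum, sum_n h.pl, sum_n_sq h.pl, h.card, Finset.sum_const, Finset.card_univ,
      h.pl.cardB, nsmul_eq_mul]
    push_cast
    ring
  have e3 : 2 * z = 2 * (s : ℤ) ^ 2 - s - 1 := by
    have e4 : t = (s : ℤ) ^ 2 + s + 1 - z := by linarith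
    have e5 : (2 * (s : ℤ)) * z = s * (2 * (s : ℤ) ^ 2 - s - 1) := by
      rw [e1, e4] at e2
      linear_combination -e2
    have e6 : (s : ℤ) * (2 * z) = s * (2 * (s : ℤ) ^ 2 - s - 1) := by rw [← e5]; ring
    exact mul_left_cancel₀ (by omega) e6
  have ht0 : 0 < t := by nlinarith
  have hbt : ∃ b, n I S b = s := by
    rw [ht] at ht0
    have h1 : 0 < #{b | n I S b = s} := by exact_mod_cast ht0
    obtain ⟨b, hb⟩ := Finset.card_pos.1 h1
    exact ⟨b, (Finset.mem_filter.1 hb).2⟩
  obtain ⟨b, hb⟩ := hbt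
  have hbB : b ∈ B0 := by
    by_contra hbN
    have := h.size_N hbN
    omega
  have hbg : b ≠ g := by
    intro e
    rw [e, h.miss] at hb
    omega
  obtain ⟨x, hx1, hx2, hx3, hx4⟩ : ∃ x, x ∉ S ∧ x ∉ X0 ∧ ¬ I x g ∧ I x b := by
    by_contra hcon
    push Not at hcon
    have h1 : pts I b ⊆ ({x ∈ S | I x b} : Finset X) ∪ (({x ∈ pts I b | x ∈ X0} : Finset X) ∪
        ({x | I x b ∧ I x g} : Finset X)) := by
      intro x hx
      rw [mem_pts] at hx
      simp only [Finset.mem_union, Finset.mem_filter, Finset.mem_univ, true_and, mem_pts]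
      by_cases h1 : x ∈ S
      · exact Or.inl ⟨h1, hx⟩
      · by_cases h2 : x ∈ X0
        · exact Or.inr (Or.inl ⟨hx, h2⟩)
        · right; right
          refine ⟨hx, ?_⟩
          by_contra h3
          exact hcon x h1 h2 h3 hx
    have h2 := (Finset.card_le_card h1).trans ((Finset.card_union_le _ _).trans
      (Nat.add_le_add_left (Finset.card_union_le _ _) _))
    rw [card_pts h.pl, h.pl.meet b g hbg, card_pts_X0 h.pl, if_pos hbB] at h2
    change s ^ 2 + 1 ≤ n I S b + _ at h2
    rw [hb] at h2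
    nlinarith
  have hC := h.crit hx1 hx3
  have hzc : zc I (insert x S) = zc I S := by
    unfold zc
    congr 1
    ext c
    rw [Finset.mem_filter_univ, Finset.mem_filter_univ, n_insert hx1]
    split_ifs with hxc
    · constructor
      · intro h1; exact h1.elim
      · intro h1
        exfalso
        have hcB : c ∈ B0 := by
          by_contra hcN
          have := h.blk c hcN
          omega
        have := uniq_B0 h.pl hx2 hcB hbB hxc hx4
        rw [this, hb] at h1
        omega
    · rw [add_zero]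
  by_cases hy : ∃ m, n I (insert x S) m = s + 2
  · obtain ⟨m, hm⟩ := hy
    have h1 := zc_of_big hC hm
    rw [hzc, ← hz] at h1
    omega
  · push Not at hy
    rcases zc_of_not_big hC hy with h1 | h1
    · rw [hzc, ← hz] at h1
      omega
    · rw [hzc, ← hz] at h1
      omega

/-- extension to a set with `s ^ 2 + s` elements -/
theorem exists_ext (pl : Pl I s X0 B0) (hX : Fintype.card X = s ^ 4 + s ^ 2 + 1) (hs : 20 ≤ s)
    (S : Finset X) (hS : #S ≤ s ^ 2 + s) (g : B) (hg : n I S g = 0) :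
    ∃ S' : Finset X, S ⊆ S' ∧ #S' = s ^ 2 + s ∧ n I S' g = 0 := by
  obtain ⟨d, hd⟩ : ∃ d, #S + d = s ^ 2 + s := ⟨_, Nat.add_sub_cancel' hS⟩
  induction d generalizing S with
  | zero => exact ⟨S, Finset.Subset.refl _, by omega, hg⟩
  | succ d ih =>
    obtain ⟨x, hx1, hx2, _⟩ := exists_off pl hX hs S hS g g
    obtain ⟨S', h1, h2, h3⟩ := ih (insert x S) (by rw [Finset.card_insert_of_notMem hx1]; omega)
      (by rw [n_insert hx1, hg, if_neg hx2]) (by rw [Finset.card_insert_of_notMem hx1]; omega)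
    exact ⟨S', (Finset.subset_insert _ _).trans h1, h2, h3⟩

/-- The abstract main theorem. -/
theorem main_abs (pl : Pl I s X0 B0) (hX : Fintype.card X = s ^ 4 + s ^ 2 + 1) (hs : 20 ≤ s)
    (S : Finset X) (hS : #S ≤ s ^ 2 + s + 1) (hblk : ∀ b ∉ B0, 1 ≤ n I S b) :
    (∀ b, 1 ≤ n I S b) ∨ (#S = s ^ 2 + s + 1 ∧
      (zc I S + 1 = s ^ 2 ∨ zc I S + s = s ^ 2 ∨ zc I S + s + 1 = s ^ 2) ∧
      (∀ b ∉ B0, n I S b = 1 ∨ n I S b = 2 ∨ n I S b = s + 1 ∨ n I S b = s + 2) ∧
      ∀ b ∈ B0, n I S b = 0 ∨ n I S b = 1 ∨ n I S b = s ∨ n I S b = s + 1) := by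
  by_cases hall : ∀ b, 1 ≤ n I S b
  · exact Or.inl hall
  right
  push Not at hall
  obtain ⟨g, hg⟩ := hall
  have hg0 : n I S g = 0 := by omega
  have hgB : g ∈ B0 := by
    by_contra hgN
    have := hblk g hgN
    omega
  by_cases hcard : #S ≤ s ^ 2 + s
  · exfalso
    obtain ⟨S', h1, h2, h3⟩ := exists_ext pl hX hs S hcard g hg0
    exact (SubC.mk pl hX hs h2 (fun b hb => (hblk b hb).trans (n_mono h1 b)) hgB h3).false
  · have hcard' : #S = s ^ 2 + s + 1 := by omega
    have hC : Crit I s X0 B0 S := ⟨pl, hs, hcard', hblk, g, hgB, hg0⟩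
    refine ⟨hcard', ?_, fun b hb => size_N hC hb, fun b hb => size_B hC hb⟩
    by_cases hy : ∃ m, n I S m = s + 2
    · obtain ⟨m, hm⟩ := hy
      have h1 := zc_of_big hC hm
      right; right
      have h2 : ((zc I S + s + 1 : ℕ) : ℤ) = ((s ^ 2 : ℕ) : ℤ) := by push_cast; linarith
      exact_mod_cast h2
    · push Not at hy
      rcases zc_of_not_big hC hy with h1 | h1
      · right; left
        have h2 : ((zc I S + s : ℕ) : ℤ) = ((s ^ 2 : ℕ) : ℤ) := by push_cast; linarith
        exact_mod_cast h2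
      · left
        have h2 : ((zc I S + 1 : ℕ) : ℤ) = ((s ^ 2 : ℕ) : ℤ) := by push_cast; linarith
        exact_mod_cast h2

end Pool.Agent.Helper28.Baer
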