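import Pool.Agent.Helper28.Baer.Sub

/-!
# Baer subplanes of a projective plane (MP_06d6b9_co): translation to the abstract setting
-/

set_option autoImplicit false
set_option linter.unusedSectionVars false

open Finset
open scoped Classical

namespace Pool.Agent.Helper28.Baer

section

variable {X B : Type*} [Fintype X] [Fintype B]
variable {I : X → B → Prop} {s : ℕ} {X0 : Finset X} {B0 : Finset B}

/-- the number of elements of a subplane -/
theorem sub_card (huniq : ∀ x y b c, x ≠ y → I x b → I y b → I x c → I y c → b = c)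
    (h1 : ∀ b ∈ B0, #{x ∈ X0 | I x b} = s + 1) (h2 : ∀ x ∈ X0, #{b ∈ B0 | I x b} = s + 1)
    (hj : ∀ x ∈ X0, ∀ y ∈ X0, x ≠ y → ∃ b ∈ B0, I x b ∧ I y b) (hne : X0.Nonempty) :
    #X0 = s ^ 2 + s + 1 := by
  obtain ⟨x, hx⟩ := hne
  have h3 : ∑ b ∈ B0.filter (fun b => I x b), #{y ∈ X0.erase x | I y b} =
      ∑ y ∈ X0.erase x, #{b ∈ B0.filter (fun b => I x b) | I y b} := by
    simp_rw [Finset.card_filter]
    exact Finset.sum_comm
  have h4 : ∀ b ∈ B0.filter (fun b => I x b), #{y ∈ X0.erase x | I y b} = s := by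
    intro b hb
    rw [Finset.mem_filter] at hb
    have h5 := h1 b hb.1
    have h6 : ({y ∈ X0 | I y b} : Finset X) = insert x {y ∈ X0.erase x | I y b} := by
      ext z
      simp only [Finset.mem_filter, Finset.mem_insert, Finset.mem_erase]
      constructor
      · rintro ⟨hz, hzb⟩
        by_cases hzx : z = x
        · exact Or.inl hzx
        · exact Or.inr ⟨⟨hzx, hz⟩, hzb⟩
      · rintro (rfl | ⟨⟨-, hz⟩, hzb⟩)
        · exact ⟨hx, hb.2⟩
        · exact ⟨hz, hzb⟩
    rw [h6, Finset.card_insert_of_notMem (by simp)] at h5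
    omega
  have h5 : ∀ y ∈ X0.erase x, #{b ∈ B0.filter (fun b => I x b) | I y b} = 1 := by
    intro y hy
    rw [Finset.mem_erase] at hy
    obtain ⟨b, hb, hxb, hyb⟩ := hj x hx y hy.2 (Ne.symm hy.1)
    rw [Finset.card_eq_one]
    refine ⟨b, ?_⟩
    ext c
    simp only [Finset.mem_filter, Finset.mem_singleton]
    constructor
    · rintro ⟨⟨-, hxc⟩, hyc⟩
      exact huniq x y c b (Ne.symm hy.1) hxc hyc hxb hyb
    · rintro rfl
      exact ⟨⟨hb, hxb⟩, hyb⟩
  rw [Finset.sum_congr rfl h4, Finset.sum_congr rfl h5, Finset.sum_const, Finset.sum_const,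
    h2 x hx, Finset.card_erase_of_mem hx, smul_eq_mul, smul_eq_mul, mul_one] at h3
  have h6 : 0 < #X0 := Finset.card_pos.2 ⟨x, hx⟩
  have h7 : #X0 = (s + 1) * s + 1 := by omega
  rw [h7]
  ring

/-- blocks outside of the subplane contain exactly one element of it -/
theorem sub_one (huniq : ∀ x y b c, x ≠ y → I x b → I y b → I x c → I y c → b = c)
    (hdeg : ∀ x, #{b | I x b} = s ^ 2 + 1) (hB : Fintype.card B = s ^ 4 + s ^ 2 + 1)
    (h2 : ∀ x ∈ X0, #{b ∈ B0 | I x b} = s + 1)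
    (hj : ∀ x ∈ X0, ∀ y ∈ X0, x ≠ y → ∃ b ∈ B0, I x b ∧ I y b)
    (hX0 : #X0 = s ^ 2 + s + 1) (hB0 : #B0 = s ^ 2 + s + 1) :
    ∀ b ∉ B0, #{x ∈ X0 | I x b} = 1 := by
  have hle : ∀ b ∈ B0ᶜ, #{x ∈ X0 | I x b} ≤ 1 := by
    intro b hb
    rw [Finset.mem_compl] at hb
    rw [Finset.card_le_one]
    intro x hx y hy
    rw [Finset.mem_filter] at hx hy
    by_contra hxy
    obtain ⟨c, hc, hxc, hyc⟩ := hj x hx.1 y hy.1 hxy
    exact hb (huniq x y b c hxy hx.2 hy.2 hxc hyc ▸ hc)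
  have h3 : ∑ b ∈ B0ᶜ, #{x ∈ X0 | I x b} = ∑ x ∈ X0, #{b ∈ B0ᶜ | I x b} := by
    simp_rw [Finset.card_filter]
    exact Finset.sum_comm
  have h4 : ∀ x ∈ X0, (#{b ∈ B0ᶜ | I x b} : ℤ) = (s : ℤ) ^ 2 - s := by
    intro x hx
    have h5 : #{b ∈ B0 | I x b} + #{b ∈ B0ᶜ | I x b} = s ^ 2 + 1 := by
      rw [← hdeg x, ← Finset.card_union_of_disjoint]
      · congr 1
        ext b
        simp only [Finset.mem_union, Finset.mem_filter, Finset.mem_compl, Finset.mem_univ,
          true_and]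
        tauto
      · rw [Finset.disjoint_left]
        intro b hb hb'
        rw [Finset.mem_filter] at hb hb'
        exact (Finset.mem_compl.1 hb'.1) hb.1
    rw [h2 x hx] at h5
    have h6 : ((s : ℤ) + 1) + (#{b ∈ B0ᶜ | I x b} : ℤ) = (s : ℤ) ^ 2 + 1 := by exact_mod_cast h5
    linarith
  have h5 : (∑ b ∈ B0ᶜ, (1 - #{x ∈ X0 | I x b} : ℤ)) = 0 := by
    rw [Finset.sum_sub_distrib]
    have h6 : (∑ b ∈ B0ᶜ, (#{x ∈ X0 | I x b} : ℤ)) = ∑ x ∈ X0, (#{b ∈ B0ᶜ | I x b} : ℤ) := by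
      exact_mod_cast h3
    rw [h6, Finset.sum_congr rfl h4, Finset.sum_const, Finset.sum_const, nsmul_eq_mul,
      nsmul_eq_mul, hX0]
    have h7 : (#(B0ᶜ) : ℤ) = (s : ℤ) ^ 4 + s ^ 2 + 1 - (s ^ 2 + s + 1) := by
      rw [Finset.card_compl, hB, hB0]
      rw [Nat.cast_sub]
      · push_cast
        ring
      · have := Finset.card_le_univ B0
        rwa [hB, hB0] at this
    rw [h7]
    push_cast
    ring
  intro b hb
  have h6 := (Finset.sum_eq_zero_iff_of_nonneg (fun b hb => by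
    have := hle b hb
    have : (#{x ∈ X0 | I x b} : ℤ) ≤ 1 := by exact_mod_cast this
    linarith)).1 h5 b (Finset.mem_compl.2 hb)
  have h7 : (#{x ∈ X0 | I x b} : ℤ) = 1 := by linarith
  exact_mod_cast h7

end

section Plane

variable {P L : Type*} [Fintype P] [Fintype L] [Membership P L]

/-- `(P0, L0)` is a subplane of order `s`: its points and lines form a projective plane of order
`s` under the incidence of the plane. -/
structure IsSubplane (s : ℕ) (P0 : Finset P) (L0 : Finset L) : Prop where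
  nonempty : P0.Nonempty
  join : ∀ p ∈ P0, ∀ q ∈ P0, p ≠ q → ∃ l ∈ L0, p ∈ l ∧ q ∈ l
  meet : ∀ l ∈ L0, ∀ m ∈ L0, l ≠ m → ∃ p ∈ P0, p ∈ l ∧ p ∈ m
  points : ∀ l ∈ L0, #{p ∈ P0 | p ∈ l} = s + 1
  lines : ∀ p ∈ P0, #{l ∈ L0 | p ∈ l} = s + 1

open Configuration

variable [ProjectivePlane P L]

theorem pl_of_subplane {s : ℕ} (hord : ProjectivePlane.order P L = s ^ 2) {P0 : Finset P}
    {L0 : Finset L} (h : IsSubplane s P0 L0) : Pl (fun (l : L) (p : P) => p ∈ l) s L0 P0 := by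
  have huniq : ∀ (x y : L) (b c : P), x ≠ y → b ∈ x → b ∈ y → c ∈ x → c ∈ y → b = c :=
    fun x y b c hxy h1 h2 h3 h4 => (Nondegenerate.eq_or_eq h1 h3 h2 h4).resolve_right hxy
  have huniq' : ∀ (b c : P) (x y : L), b ≠ c → b ∈ x → c ∈ x → b ∈ y → c ∈ y → x = y :=
    fun b c x y hbc h1 h2 h3 h4 => (Nondegenerate.eq_or_eq h1 h2 h3 h4).resolve_left hbc
  have hdegX : ∀ l : L, #{p : P | p ∈ l} = s ^ 2 + 1 := by
    intro l
    have h1 := ProjectivePlane.pointCount_eq (P := P) l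
    unfold pointCount at h1
    rw [Nat.card_eq_fintype_card, Fintype.card_subtype, hord] at h1
    convert h1
  have hdegB : ∀ p : P, #{l : L | p ∈ l} = s ^ 2 + 1 := by
    intro p
    have h1 := ProjectivePlane.lineCount_eq (L := L) p
    unfold lineCount at h1
    rw [Nat.card_eq_fintype_card, Fintype.card_subtype, hord] at h1
    convert h1
  have hB : Fintype.card P = s ^ 4 + s ^ 2 + 1 := by
    rw [ProjectivePlane.card_points P L, hord]
    ring
  have hX : Fintype.card L = s ^ 4 + s ^ 2 + 1 := by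
    rw [ProjectivePlane.card_lines P L, hord]
    ring
  have hneL : L0.Nonempty := by
    obtain ⟨p, hp⟩ := h.nonempty
    have h1 := h.lines p hp
    have h2 : ({l ∈ L0 | p ∈ l} : Finset L).Nonempty := by
      rw [← Finset.card_pos]
      omega
    obtain ⟨l, hl⟩ := h2
    exact ⟨l, (Finset.mem_filter.1 hl).1⟩
  have hcP : #P0 = s ^ 2 + s + 1 :=
    sub_card (X := P) (B := L) (I := fun p l => p ∈ l) huniq' h.points h.lines h.join h.nonempty
  have hcL : #L0 = s ^ 2 + s + 1 :=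
    sub_card (X := L) (B := P) (I := fun l p => p ∈ l) huniq h.lines h.points h.meet hneL
  refine ⟨?_, ?_, hdegX, hdegB, ?_, h.points, ?_, h.lines, hcL, hcP, hB⟩
  · intro x y hxy
    obtain ⟨p, hp, hp'⟩ := HasPoints.existsUnique_point P L x y hxy
    rw [Finset.card_eq_one]
    refine ⟨p, ?_⟩
    ext q
    simp only [Finset.mem_filter, Finset.mem_univ, true_and, Finset.mem_singleton]
    exact ⟨fun hq => hp' q hq, fun hq => hq ▸ hp⟩
  · intro x y hxy
    obtain ⟨l, hl, hl'⟩ := HasLines.existsUnique_line P L x y hxy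
    rw [Finset.card_eq_one]
    refine ⟨l, ?_⟩
    ext q
    simp only [Finset.mem_filter, Finset.mem_univ, true_and, Finset.mem_singleton]
    exact ⟨fun hq => hl' q hq, fun hq => hq ▸ hl⟩
  · exact sub_one (X := P) (B := L) (I := fun p l => p ∈ l) huniq' hdegB hX h.lines h.join hcP hcL
  · exact sub_one (X := L) (B := P) (I := fun l p => p ∈ l) huniq hdegX hB h.points h.meet hcL hcP

end Plane

end Pool.Agent.Helper28.Baer
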